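import Mathlib
import Pool.Agent.Q78.GW.Base

set_option autoImplicit false

/-!
# Spaces of polynomials which are stable under a derivation of the coefficients
-/

namespace Pool.Agent.Q78.FO

open MvPolynomial Pool.Agent.Q78.GW

variable {K : Type} [Field K] (D : Derivation ℤ K K)

/-- The field of constants. -/
def cst : Subfield K where
  carrier := {x | D x = 0}
  mul_mem' := by
    intro a b ha hb
    have ha' : D a = 0 := ha
    have hb' : D b = 0 := hb
    show D (a * b) = 0
    rw [Derivation.leibniz, ha', hb', smul_zero, smul_zero, add_zero]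
  one_mem' := D.map_one_eq_zero
  add_mem' := by
    intro a b ha hb
    have ha' : D a = 0 := ha
    have hb' : D b = 0 := hb
    show D (a + b) = 0
    rw [map_add, ha', hb', add_zero]
  zero_mem' := map_zero D
  neg_mem' := by
    intro a ha
    have ha' : D a = 0 := ha
    show D (-a) = 0
    rw [map_neg, ha', neg_zero]
  inv_mem' := by
    intro a ha
    have ha' : D a = 0 := ha
    show D a⁻¹ = 0
    by_cases h : a = 0
    · rw [h, inv_zero, map_zero]
    · have h1 : D (a * a⁻¹) = 0 := by
        rw [mul_inv_cancel₀ h]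
        exact D.map_one_eq_zero
      rw [Derivation.leibniz, ha', smul_zero, add_zero, smul_eq_mul] at h1
      exact (mul_eq_zero.1 h1).resolve_left h

theorem mem_cst {x : K} : x ∈ cst D ↔ D x = 0 := Iff.rfl

section span

variable {σ : Type}

/-- A stable space is spanned by its members with constant coefficients. -/
theorem mem_span {V : Submodule K (MvPolynomial σ K)} (hV : ∀ f ∈ V, dc D f ∈ V) :
    ∀ (N : ℕ) (f : MvPolynomial σ K), f.support.card = N → f ∈ V →
      f ∈ Submodule.span K {g | g ∈ V ∧ dc D g = 0} := by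
  classical
  intro N
  induction N using Nat.strong_induction_on with
  | _ N ih =>
  intro f hN hf
  by_cases h0 : f = 0
  · rw [h0]
    exact Submodule.zero_mem _
  obtain ⟨α, hα⟩ := MvPolynomial.ne_zero_iff.1 h0
  obtain ⟨c, hc⟩ : ∃ c, c = (coeff α f)⁻¹ := ⟨_, rfl⟩
  have hc0 : c ≠ 0 := hc ▸ inv_ne_zero hα
  obtain ⟨f1, hf1⟩ : ∃ f1, f1 = c • f := ⟨_, rfl⟩
  have hf1V : f1 ∈ V := hf1 ▸ V.smul_mem c hf
  have hsup : f1.support = f.support := by
    rw [hf1]
    exact MvPolynomial.support_smul_eq hc0 f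
  have hcα : coeff α f1 = 1 := by
    rw [hf1, coeff_smul, hc, smul_eq_mul, inv_mul_cancel₀ hα]
  suffices h : f1 ∈ Submodule.span K {g | g ∈ V ∧ dc D g = 0} by
    have h2 := Submodule.smul_mem _ c⁻¹ h
    rwa [hf1, smul_smul, inv_mul_cancel₀ hc0, one_smul] at h2
  -- the derivative has a smaller support
  have hsub : ∀ β ∈ (dc D f1).support, β ∈ f.support ∧ β ≠ α := by
    intro β hβ
    rw [mem_support_iff, coeff_dc] at hβ
    refine ⟨?_, ?_⟩
    · rw [← hsup, mem_support_iff]
      intro h
      rw [h, map_zero] at hβ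
      exact hβ rfl
    · intro h
      rw [h, hcα] at hβ
      exact hβ D.map_one_eq_zero
  have hcard : ∀ g : MvPolynomial σ K, ∀ β ∈ f.support, (∀ γ ∈ g.support, γ ∈ f.support ∧ γ ≠ β) →
      g.support.card < N := by
    intro g β hβ hg
    rw [← hN]
    refine Finset.card_lt_card ?_
    rw [Finset.ssubset_iff_of_subset fun γ hγ => (hg γ hγ).1]
    exact ⟨β, hβ, fun h => (hg β h).2 rfl⟩
  have hα' : α ∈ f.support := mem_support_iff.2 hα
  have h1 := ih _ (hcard _ α hα' hsub) (dc D f1) rfl (hV f1 hf1V)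
  by_cases hz : dc D f1 = 0
  · exact Submodule.subset_span ⟨hf1V, hz⟩
  · obtain ⟨β, hβ⟩ := MvPolynomial.ne_zero_iff.1 hz
    obtain ⟨b, hb⟩ : ∃ b, b = coeff β f1 * (coeff β (dc D f1))⁻¹ := ⟨_, rfl⟩
    obtain ⟨f2, hf2⟩ : ∃ f2, f2 = f1 - b • dc D f1 := ⟨_, rfl⟩
    have h2 : f2 ∈ Submodule.span K {g | g ∈ V ∧ dc D g = 0} := by
      refine ih _ (hcard f2 β (hsub β (mem_support_iff.2 hβ)).1 ?_) f2 rfl ?_
      · intro γ hγ
        rw [mem_support_iff, hf2, coeff_sub, coeff_smul] at hγ
        refine ⟨?_, ?_⟩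
        · rw [← hsup, mem_support_iff]
          intro h
          apply hγ
          rw [coeff_dc, h, map_zero, smul_zero, sub_zero]
        · intro h
          apply hγ
          rw [h, hb, smul_eq_mul, mul_assoc, inv_mul_cancel₀ hβ, mul_one, sub_self]
      · rw [hf2]
        exact V.sub_mem hf1V (V.smul_mem b (hV f1 hf1V))
    have h3 := Submodule.add_mem _ h2 (Submodule.smul_mem _ b h1)
    rwa [hf2, sub_add_cancel] at h3

end span

end Pool.Agent.Q78.FO
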