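import Mathlib
import Pool.Agent.Q78.FO.Const

set_option autoImplicit false

/-!
# The curve through a moving point
-/

namespace Pool.Agent.Q78.FO

open MvPolynomial Pool.Agent.Q78.GW Pool.Agent.H932R5

section

variable {K : Type} [Field K] [CharZero K] (D : Derivation ℤ K K)

/-- `D` is linear over the constants. -/
def Dc : Derivation (cst D) K K :=
  Derivation.mk' { toFun := D
                   map_add' := map_add D
                   map_smul' := fun c x => by
                    have h : D (c : K) = 0 := c.2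
                    show D ((c : K) * x) = (c : K) * D x
                    rw [Derivation.leibniz, h, smul_zero, add_zero, smul_eq_mul] }
    (fun a b => by
      show D (a * b) = a • D b + b • D a
      exact D.leibniz a b)

theorem alg_const {x : K} (h : IsAlgebraic (cst D) x) : D x = 0 := by
  have h1 := (Dc D).map_aeval (minpoly (cst D) x) x
  rw [minpoly.aeval, map_zero, smul_eq_mul] at h1
  have h2 := ((minpoly.irreducible h.isIntegral).separable).aeval_derivative_ne_zero
    (minpoly.aeval (cst D) x)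
  exact (mul_eq_zero.1 h1.symm).resolve_left h2

/-- The ideal of the polynomials over the constants which vanish at `p`. -/
noncomputable def pp (p : Fin 2 → K) : Ideal (MvPolynomial (Fin 2) (cst D)) :=
  RingHom.ker (aeval p : MvPolynomial (Fin 2) (cst D) →ₐ[cst D] K)

omit [CharZero K] in
theorem mem_pp {p : Fin 2 → K} {q : MvPolynomial (Fin 2) (cst D)} :
    q ∈ pp D p ↔ aeval p q = 0 := RingHom.mem_ker

omit [CharZero K] in
theorem pp_prime (p : Fin 2 → K) : (pp D p).IsPrime := RingHom.ker_isPrime _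

theorem not_max {p : Fin 2 → K} (hp : ∃ a, D (p a) ≠ 0) : ¬ (pp D p).IsMaximal := by
  intro hM
  obtain ⟨a, ha⟩ := hp
  apply ha
  apply alg_const
  have h1 := MvPolynomial.quotient_mk_comp_C_isIntegral_of_isJacobsonRing (pp D p)
    (Ideal.Quotient.mk (pp D p) (X a))
  obtain ⟨q, hq, hq'⟩ := h1
  refine (show IsIntegral (cst D) (p a) from ⟨q, hq, ?_⟩).isAlgebraic
  obtain ⟨φ, hφ⟩ : ∃ φ : (MvPolynomial (Fin 2) (cst D) ⧸ pp D p) →+* K, ∀ q,
      φ (Ideal.Quotient.mk (pp D p) q) = aeval p q :=
    ⟨Ideal.Quotient.lift (pp D p)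
      ((aeval p : MvPolynomial (Fin 2) (cst D) →ₐ[cst D] K) : MvPolynomial (Fin 2) (cst D) →+* K)
      (fun q hq => (mem_pp D).1 hq), fun q => Ideal.Quotient.lift_mk _ _ _⟩
  have h2 := congrArg φ hq'
  rw [map_zero, Polynomial.hom_eval₂] at h2
  have h3 : φ (Ideal.Quotient.mk (pp D p) (X a)) = p a := by
    rw [hφ, aeval_X]
  have h4 : φ.comp ((Ideal.Quotient.mk (pp D p)).comp C) = algebraMap (cst D) K := by
    ext c
    rw [RingHom.comp_apply, RingHom.comp_apply, hφ, aeval_C]
  rw [h3, h4] at h2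
  exact h2

/-- The ideal is generated by one prime element. -/
theorem exists_gen {p : Fin 2 → K} (hp : ∃ a, D (p a) ≠ 0) (hne : pp D p ≠ ⊥) :
    ∃ g : MvPolynomial (Fin 2) (cst D), Prime g ∧ ∀ q, aeval p q = 0 ↔ g ∣ q := by
  obtain ⟨g, hg, hgp⟩ := (pp_prime D p).exists_mem_prime_of_ne_bot hne
  refine ⟨g, hgp, fun q => ⟨fun hq => ?_, ?_⟩⟩
  · by_contra hndvd
    obtain ⟨M, hM, hpM⟩ := (pp D p).exists_le_maximal (pp_prime D p).ne_top
    have hne' : pp D p ≠ M := fun h => not_max D hp (h ▸ hM)
    have hs : (Ideal.span {g}).IsPrime := (Ideal.span_singleton_prime hgp.ne_zero).2 hgp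
    have h1 : (⊥ : Ideal (MvPolynomial (Fin 2) (cst D))) < Ideal.span {g} := by
      rw [bot_lt_iff_ne_bot]
      intro h
      exact hgp.ne_zero (Ideal.span_singleton_eq_bot.1 h)
    have h2 : Ideal.span {g} < pp D p := by
      refine lt_of_le_of_ne ((Ideal.span_singleton_le_iff_mem _).2 hg) fun h => hndvd ?_
      have h3 : q ∈ pp D p := (mem_pp D).2 hq
      rw [← h] at h3
      exact Ideal.mem_span_singleton.1 h3
    have h3 : pp D p < M := lt_of_le_of_ne hpM hne'
    obtain ⟨s, hs'⟩ : ∃ s : LTSeries (PrimeSpectrum (MvPolynomial (Fin 2) (cst D))),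
        s.length = 3 := by
      refine ⟨⟨3, ![⟨⊥, Ideal.isPrime_bot⟩, ⟨_, hs⟩, ⟨_, pp_prime D p⟩, ⟨M, hM.isPrime⟩], ?_⟩, rfl⟩
      intro i
      fin_cases i
      · exact h1
      · exact h2
      · exact h3
    have h4 := Order.LTSeries.length_le_krullDim s
    have h5 : Order.krullDim (PrimeSpectrum (MvPolynomial (Fin 2) (cst D))) = 2 := by
      have h6 := MvPolynomial.ringKrullDim_of_isNoetherianRing (R := cst D) (ι := Fin 2)
      rw [ringKrullDim_eq_zero_of_field, Nat.card_eq_fintype_card, Fintype.card_fin, zero_add] at h6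
      exact h6
    rw [h5, hs'] at h4
    norm_cast at h4
  · rintro ⟨r, rfl⟩
    rw [map_mul, (mem_pp D).1 hg, zero_mul]

end

end Pool.Agent.Q78.FO
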