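import Mathlib
import Pool.Agent.Q78.FO.Curve
import Pool.Agent.Q78.GW.Final

set_option autoImplicit false

/-!
# Vanishing to high order along the curve
-/

namespace Pool.Agent.Q78.FO

open MvPolynomial Pool.Agent.Q78.GW Pool.Agent.H932R5

section const

variable {F : Type} [Field F] [CharZero F]

omit [CharZero F] in
theorem coeff_pd (a : Fin 2) (f : MvPolynomial (Fin 2) F) (α : Fin 2 →₀ ℕ) :
    coeff α (pderiv a f) = coeff (α + Finsupp.single a 1) f * (α a + 1) := by
  rw [coeff_pderiv]

/-- A prime element does not divide all its partial derivatives. -/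
theorem exists_pderiv {g : MvPolynomial (Fin 2) F} (hg : Prime g) : ∃ a, ¬ g ∣ pderiv a g := by
  classical
  by_contra hcon
  push Not at hcon
  have h1 : ∀ a, pderiv a g = 0 := by
    intro a
    by_contra h
    obtain ⟨s, hs⟩ := hcon a
    have hs0 : s ≠ 0 := fun h' => h (by rw [hs, h', mul_zero])
    have h2 : (pderiv a g).totalDegree = g.totalDegree + s.totalDegree := by
      rw [hs]
      exact totalDegree_mul_of_isDomain hg.ne_zero hs0
    obtain ⟨α, hα, hα'⟩ : ∃ α ∈ (pderiv a g).support, Finsupp.degree α = (pderiv a g).totalDegree := by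
      obtain ⟨α, hα, hα'⟩ := Finset.exists_mem_eq_sup (pderiv a g).support
        (by rwa [Finset.nonempty_iff_ne_empty, Ne, MvPolynomial.support_eq_empty])
        (fun s => s.sum fun _ e => e)
      exact ⟨α, hα, hα'.symm⟩
    have h3 : coeff (α + Finsupp.single a 1) g ≠ 0 := by
      intro h4
      rw [mem_support_iff, coeff_pd, h4, zero_mul] at hα
      exact hα rfl
    have h4 : Finsupp.degree (α + Finsupp.single a 1) ≤ g.totalDegree :=
      le_totalDegree (mem_support_iff.2 h3)
    rw [map_add, Finsupp.degree_single, hα', h2] at h4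
    omega
  have h2 : g = C (coeff 0 g) := by
    ext α
    rw [coeff_C]
    split_ifs with h
    · rw [← h]
    · have h3 : ∃ a, α a ≠ 0 := by
        by_contra h4
        push Not at h4
        exact h (Finsupp.ext h4).symm
      obtain ⟨a, ha⟩ := h3
      have h4 := coeff_pd a g (α - Finsupp.single a 1)
      rw [h1 a, coeff_zero, swap_sub ha] at h4
      rcases mul_eq_zero.1 h4.symm with h5 | h5
      · exact h5
      · exact absurd h5 (Nat.cast_add_one_ne_zero _)
  have h3 : coeff 0 g ≠ 0 := by
    intro h4
    rw [h4, C_0] at h2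
    exact hg.ne_zero h2
  apply hg.not_isUnit
  rw [h2]
  exact (isUnit_iff_ne_zero.2 h3).map C

end const

section

variable {K : Type} [Field K] [CharZero K] (D : Derivation ℤ K K)

/-- Vanishing to order `m` at `p`. -/
def Ordp (p : Fin 2 → K) (m : ℕ) (f : MvPolynomial (Fin 2) K) : Prop :=
  ∀ α, Finsupp.degree α < m → coeff α (shift (E := 1) p f) = 0

omit [CharZero K] in
theorem Ordp.mono {p : Fin 2 → K} {m m' : ℕ} (h : m' ≤ m) {f : MvPolynomial (Fin 2) K}
    (hf : Ordp p m f) : Ordp p m' f := fun α hα => hf α (lt_of_lt_of_le hα h)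

omit [CharZero K] in
theorem Ordp.pderiv {p : Fin 2 → K} {m : ℕ} {f : MvPolynomial (Fin 2) K} (hf : Ordp p (m + 1) f)
    (a : Fin 2) : Ordp p m (pderiv a f) := by
  intro α hα
  rw [pderiv_shift (E := 1), coeff_pd, hf, zero_mul]
  rw [map_add, Finsupp.degree_single]
  omega

omit [CharZero K] in
theorem eval_of_ordp {p : Fin 2 → K} {f : MvPolynomial (Fin 2) K} (hf : Ordp p 1 f) :
    eval p f = 0 := by
  have h1 := hf 0 (by simp)
  have h2 : ∀ f : MvPolynomial (Fin 2) K, coeff 0 (shift (E := 1) p f) = eval p f := by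
    intro f
    induction f using MvPolynomial.induction_on with
    | C c => simp
    | add f g hf hg => simp [hf, hg]
    | mul_X f j hf =>
      rw [map_mul, map_mul, shift_X, eval_X, ← hf]
      have h3 : ∀ A B : MvPolynomial (Fin 2) K, coeff 0 (A * B) = coeff 0 A * coeff 0 B := by
        intro A B
        exact map_mul (constantCoeff (R := K) (σ := Fin 2)) A B
      rw [h3]
      congr 1
      simp
  rw [← h2]
  exact h1

/-- Vanishing to order `m` at `p` is vanishing to order `m` along the curve. -/
theorem pow_dvd {p : Fin 2 → K} {g : MvPolynomial (Fin 2) (cst D)} (hg : Prime g)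
    (hgen : ∀ q, aeval p q = 0 → g ∣ q) : ∀ (m : ℕ) (q : MvPolynomial (Fin 2) (cst D)),
      Ordp p m (map (algebraMap (cst D) K) q) → g ^ m ∣ q := by
  intro m
  induction m with
  | zero =>
    intro q _
    rw [pow_zero]
    exact one_dvd q
  | succ m ih =>
    intro q hq
    obtain ⟨r, hr⟩ := ih q (hq.mono (Nat.le_succ m))
    rcases Nat.eq_zero_or_pos m with h0 | hpos
    · subst h0
      rw [zero_add, pow_one]
      apply hgen
      have h1 := eval_of_ordp hq
      rwa [eval_map, ← aeval_def] at h1
    · by_cases hgr : g ∣ r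
      · obtain ⟨s, hs⟩ := hgr
        exact ⟨s, by rw [hr, hs, pow_succ, mul_assoc]⟩
      · exfalso
        obtain ⟨a, ha⟩ := exists_pderiv hg
        have h1 : g ^ m ∣ pderiv a q := by
          apply ih
          rw [← pderiv_map]
          exact hq.pderiv a
        obtain ⟨k, rfl⟩ : ∃ k, m = k + 1 := ⟨m - 1, by omega⟩
        have h2 : pderiv a q = g ^ (k + 1) * pderiv a r +
            ((k + 1 : ℕ) : MvPolynomial (Fin 2) (cst D)) * (g ^ k * pderiv a g * r) := by
          rw [hr, Derivation.leibniz, Derivation.leibniz_pow, smul_eq_mul, smul_eq_mul,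
            Nat.add_sub_cancel, smul_eq_mul, nsmul_eq_mul]
          ring
        rw [h2] at h1
        have h3 := (dvd_add_right (dvd_mul_right (g ^ (k + 1)) (pderiv a r))).1 h1
        have h4 : ((k + 1 : ℕ) : MvPolynomial (Fin 2) (cst D)) * (g ^ k * pderiv a g * r) =
            g ^ k * (((k + 1 : ℕ) : MvPolynomial (Fin 2) (cst D)) * (pderiv a g * r)) := by ring
        rw [h4, pow_succ] at h3
        have h5 := (mul_dvd_mul_iff_left (pow_ne_zero k hg.ne_zero)).1 h3
        rcases hg.dvd_or_dvd h5 with h6 | h6
        · refine hg.not_isUnit (isUnit_of_dvd_unit h6 ?_)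
          have h7 : ((k + 1 : ℕ) : MvPolynomial (Fin 2) (cst D)) = C ((k + 1 : ℕ) : cst D) := by
            rw [map_natCast]
          rw [h7]
          exact (isUnit_iff_ne_zero.2 (Nat.cast_ne_zero.2 (Nat.succ_ne_zero k))).map C
        · rcases hg.dvd_or_dvd h6 with h7 | h7
          · exact ha h7
          · exact hgr h7

end

end Pool.Agent.Q78.FO
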