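import Mathlib
import Pool.Agent.Q78.FO.Dvd

set_option autoImplicit false

/-!
# Tangent cones which are multiples of one power of a linear form
-/

namespace Pool.Agent.Q78.FO

open MvPolynomial Pool.Agent.Q78.GW Pool.Agent.H932R5

variable {K : Type} [Field K]

theorem exists_const (D : Derivation ℤ K K) {h : MvPolynomial (Fin 2) K} (hh : dc D h = 0) :
    ∃ q : MvPolynomial (Fin 2) (cst D), map (algebraMap (cst D) K) q = h := by
  classical
  refine ⟨∑ α ∈ h.support, monomial α (⟨coeff α h, ?_⟩ : cst D), ?_⟩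
  · show D (coeff α h) = 0
    rw [← coeff_dc, hh, coeff_zero]
  · rw [map_sum]
    conv_rhs => rw [h.as_sum]
    refine Finset.sum_congr rfl fun α _ => ?_
    rw [map_monomial]
    rfl

variable [CharZero K]

/-- If a space of polynomials is stable under the derivation `D` of the coefficients and all its
members vanish to order `m` at a point with nonconstant coordinates then they are all divisible by
the `m`-th power of one polynomial vanishing at the point. -/
theorem curve_of_stable (D : Derivation ℤ K K) {V : Submodule K (MvPolynomial (Fin 2) K)}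
    (hV : ∀ f ∈ V, dc D f ∈ V) (hne : V ≠ ⊥) {p : Fin 2 → K} (hp : ∃ a, D (p a) ≠ 0) {m : ℕ}
    (hm : 1 ≤ m) (hord : ∀ f ∈ V, Ordp p m f) :
    ∃ g : MvPolynomial (Fin 2) K, g ≠ 0 ∧ eval p g = 0 ∧ ∀ f ∈ V, g ^ m ∣ f := by
  have hspan : ∀ f ∈ V, f ∈ Submodule.span K {g | g ∈ V ∧ dc D g = 0} :=
    fun f hf => mem_span D hV _ f rfl hf
  obtain ⟨h, hh, hhV, hh0⟩ : ∃ h : MvPolynomial (Fin 2) K, dc D h = 0 ∧ h ∈ V ∧ h ≠ 0 := by
    by_contra hcon
    push Not at hcon
    apply hne
    rw [eq_bot_iff]
    intro f hf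
    have h1 := hspan f hf
    have h2 : Submodule.span K {g | g ∈ V ∧ dc D g = 0} ≤ ⊥ := by
      rw [Submodule.span_le]
      rintro g ⟨hg1, hg2⟩
      exact hcon g hg2 hg1
    exact h2 h1
  obtain ⟨q, hq⟩ := exists_const D hh
  have hpp : pp D p ≠ ⊥ := by
    intro hbot
    have h1 : q ∈ pp D p := by
      rw [mem_pp]
      have h2 := eval_of_ordp ((hord h hhV).mono hm)
      rw [← hq, eval_map] at h2
      exact h2
    rw [hbot, Submodule.mem_bot] at h1
    apply hh0
    rw [← hq, h1, map_zero]
  obtain ⟨g, hg, hgen⟩ := exists_gen D hp hpp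
  refine ⟨map (algebraMap (cst D) K) g, ?_, ?_, fun f hf => ?_⟩
  · intro h1
    apply hg.ne_zero
    exact map_injective _ (algebraMap (cst D) K).injective (by rw [h1, map_zero])
  · rw [eval_map]
    exact (hgen g).2 dvd_rfl
  · refine Submodule.span_induction (p := fun f _ => (map (algebraMap (cst D) K) g) ^ m ∣ f)
      ?_ ?_ ?_ ?_ (hspan f hf)
    · rintro f' ⟨hf1, hf2⟩
      obtain ⟨q', hq'⟩ := exists_const D hf2
      have h1 := pow_dvd D hg (fun q h => (hgen q).1 h) m q' (by rw [hq']; exact hord f' hf1)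
      obtain ⟨s, hs⟩ := h1
      exact ⟨map (algebraMap (cst D) K) s, by rw [← hq', hs, map_mul, map_pow]⟩
    · exact dvd_zero _
    · intro x y _ _ hx hy
      exact dvd_add hx hy
    · intro c x _ hx
      rw [← C_mul']
      exact Dvd.dvd.mul_left hx _

end Pool.Agent.Q78.FO
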