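import Mathlib
import Pool.Agent.Q78.FO.Stable

set_option autoImplicit false

/-!
# Tangent cones at general points of the plane
-/

namespace Pool.Agent.Q78.FO

open MvPolynomial Pool.Agent.Q78.GW Pool.Agent.H932R5

variable {K : Type} [Field K] [CharZero K] {n : ℕ} {P : Fin n → Fin (1 + 1) → K}

/-- A direction which kills all tangent cones at `P i` gives a multiple curve through `P i`. -/
theorem curve_of_kill (hP : AlgebraicIndependent ℚ (fun q : Fin n × Fin (1 + 1) => P q.1 q.2))
    {d : ℕ} {w : Fin n → ℕ} {i : Fin n} (hwi : 1 ≤ w i) (hne : Lw d P w ≠ ⊥)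
    {v : Fin (1 + 1) → K} (hv : ∃ a, v a ≠ 0)
    (hk : ∀ h ∈ Wl d P w i, ∑ a, C (v a) * pderiv a h = 0) :
    ∃ g : MvPolynomial (Fin 2) K, g ≠ 0 ∧ eval (P i) g = 0 ∧ ∀ f ∈ Lw d P w, g ^ (w i) ∣ f := by
  classical
  obtain ⟨D, hD⟩ := ex_der hP (fun k a => if k = i then v a else 0)
  refine curve_of_stable (V := Lw d P w) D (fun f hf => ?_) hne (p := P i) ?_ hwi
    (fun f hf => hf.2 i)
  · obtain ⟨w', hw'⟩ : ∃ w', w' = Function.update w i (w i - 1) := ⟨_, rfl⟩
    have h1 : dc D f ∈ Lw d P w' := by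
      refine move D (fun k => ?_) hf
      by_cases hki : k = i
      · right
        rw [hw', hki, Function.update_self]
      · left
        rw [hw', Function.update_of_ne hki]
        refine ⟨le_rfl, fun a => ?_⟩
        rw [hD, if_neg hki]
    refine ⟨h1.1, fun k α hα => ?_⟩
    by_cases hki : k = i
    · subst hki
      rcases Nat.lt_or_ge (Finsupp.degree α) (w k - 1) with h2 | h2
      · exact h1.2 k α (by rw [hw', Function.update_self]; exact h2)
      · have h3 : Finsupp.degree α = w k - 1 := by omega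
        have h4 := ld_dc_self D (p := P k) (m := w k - 1) (f := f)
          (fun β hβ => hf.2 k β (by omega))
        have e : w k - 1 + 1 = w k := by omega
        rw [e] at h4
        have h5 : ∑ a, C (D (P k a)) * pderiv a (ld (P k) (w k) f) = 0 := by
          have h6 := hk (ld (P k) (w k) f) ⟨f, hf, rfl⟩
          rw [← h6]
          refine Finset.sum_congr rfl fun a _ => ?_
          rw [hD, if_pos rfl]
        rw [h5, neg_zero] at h4
        have h7 : coeff α (ld (P k) (w k - 1) (dc D f)) = 0 := by rw [h4, coeff_zero]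
        rwa [coeff_ld, if_pos h3] at h7
    · exact h1.2 k α (by rw [hw', Function.update_of_ne hki]; exact hα)
  · obtain ⟨a, ha⟩ := hv
    exact ⟨a, by rwa [hD, if_pos rfl]⟩

omit [CharZero K] in
theorem homog_degree {m : ℕ} {h : MvPolynomial (Fin (1 + 1)) K}
    (hh : h ∈ homogeneousSubmodule (Fin (1 + 1)) K m) {α : Fin (1 + 1) →₀ ℕ}
    (hα : coeff α h ≠ 0) : Finsupp.degree α = m := by
  have h2 := hh hα
  rw [Finsupp.degree_eq_weight_one]
  exact h2

theorem eq_zero_of_pderiv {m : ℕ} (hm : 1 ≤ m) {h : MvPolynomial (Fin (1 + 1)) K}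
    (hh : h ∈ homogeneousSubmodule (Fin (1 + 1)) K m) (h0 : ∀ a, pderiv a h = 0) : h = 0 := by
  by_contra hne
  obtain ⟨α, hα⟩ := MvPolynomial.ne_zero_iff.1 hne
  have h1 := homog_degree hh hα
  obtain ⟨a, ha⟩ : ∃ a, α a ≠ 0 := by
    by_contra h2
    push Not at h2
    have h3 : α = 0 := Finsupp.ext h2
    rw [h3, map_zero] at h1
    omega
  have h4 := coeff_pd a h (α - Finsupp.single a 1)
  rw [h0 a, coeff_zero, swap_sub ha] at h4
  rcases mul_eq_zero.1 h4.symm with h5 | h5
  · exact hα h5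
  · exact absurd h5 (Nat.cast_add_one_ne_zero _)

/-- Otherwise the leading forms one degree below have dimension at least two. -/
theorem two_le (hP : AlgebraicIndependent ℚ (fun q : Fin n × Fin (1 + 1) => P q.1 q.2))
    {d : ℕ} {w : Fin n → ℕ} {i : Fin n} (hwi : 2 ≤ w i) (hne : Lw d P w ≠ ⊥)
    (hk : ¬ ∃ v : Fin (1 + 1) → K, (∃ a, v a ≠ 0) ∧
      ∀ h ∈ Wl d P w i, ∑ a, C (v a) * pderiv a h = 0) :
    2 ≤ Module.finrank K ↥(Wl d P (Function.update w i (w i - 1)) i) := by
  classical
  by_contra hcon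
  have i1 := Wl_fin d P (Function.update w i (w i - 1)) i
  obtain ⟨⟨u, hu⟩, hu'⟩ := (finrank_le_one_iff (K := K)).1 (by omega :
    Module.finrank K ↥(Wl d P (Function.update w i (w i - 1)) i) ≤ 1)
  have hder : ∀ h ∈ Wl d P w i, ∀ a, ∃ c : K, pderiv a h = C c * u := by
    intro h hh a
    have e : Function.update w i (w i - 1 + 1) = w := by
      have : w i - 1 + 1 = w i := by omega
      rw [this, Function.update_eq_self]
    have h1 := pderiv_mem hP (w := w) (i := i) (t := w i - 1) (g := h) (by rwa [e]) a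
    obtain ⟨c, hc⟩ := hu' ⟨_, h1⟩
    refine ⟨c, ?_⟩
    have h2 := congrArg Subtype.val hc
    rw [C_mul']
    exact h2.symm
  have hhom : ∀ h ∈ Wl d P w i, h ∈ homogeneousSubmodule (Fin (1 + 1)) K (w i) :=
    fun h hh => Wl_homog d P w i hh
  have huhom : u ∈ homogeneousSubmodule (Fin (1 + 1)) K (w i - 1) := by
    have h1 := Wl_homog d P (Function.update w i (w i - 1)) i hu
    rwa [Function.update_self] at h1
  obtain ⟨h0, hh0, hh0'⟩ := Submodule.exists_mem_ne_zero_of_ne_bot (Wl_ne_bot hP hne i)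
  obtain ⟨α0, hα0⟩ := hder h0 hh0 0
  obtain ⟨β0, hβ0⟩ := hder h0 hh0 1
  apply hk
  refine ⟨![β0, -α0], ?_, fun h hh => ?_⟩
  · by_contra h1
    push Not at h1
    apply hh0'
    refine eq_zero_of_pderiv (m := w i) (by omega) (hhom h0 hh0) fun a => ?_
    have h2 := h1 0
    have h3 := h1 1
    simp only [Matrix.cons_val_zero, Matrix.cons_val_one] at h2 h3
    fin_cases a
    · show pderiv 0 h0 = 0
      rw [hα0, neg_eq_zero.1 h3, C_0, zero_mul]
    · show pderiv 1 h0 = 0
      rw [hβ0, h2, C_0, zero_mul]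
  · obtain ⟨α, hα⟩ := hder h hh 0
    obtain ⟨β, hβ⟩ := hder h hh 1
    have h1 : ∑ a, C ((![β0, -α0] : Fin (1 + 1) → K) a) * pderiv a h = C (β0 * α - α0 * β) * u := by
      rw [Fin.sum_univ_two]
      simp only [Matrix.cons_val_zero, Matrix.cons_val_one]
      rw [hα, hβ]
      simp only [map_sub, map_mul, map_neg]
      ring
    rw [h1]
    by_contra hne2
    have hc : β0 * α - α0 * β ≠ 0 := by
      intro h2
      rw [h2, C_0, zero_mul] at hne2
      exact hne2 rfl
    have hu0 : u ≠ 0 := by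
      intro h2
      rw [h2, mul_zero] at hne2
      exact hne2 rfl
    -- the second derivatives
    have hsym : ∀ f : MvPolynomial (Fin (1 + 1)) K, ∀ x y : K, pderiv 0 f = C x * u →
        pderiv 1 f = C y * u → C x * pderiv 1 u = C y * pderiv 0 u := by
      intro f x y hx hy
      have h2 : pderiv 1 (pderiv 0 f) = pderiv 0 (pderiv 1 f) := by
        ext γ
        rw [coeff_pd, coeff_pd, coeff_pd, coeff_pd, add_right_comm]
        simp
        ring
      rw [hx, hy, pderiv_C_mul, pderiv_C_mul] at h2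
      exact h2
    have h2 := hsym h0 α0 β0 hα0 hβ0
    have h3 := hsym h α β hα hβ
    have h4 : C (β0 * α - α0 * β) * pderiv 0 u = 0 := by
      simp only [map_sub, map_mul]
      linear_combination (C α0 : MvPolynomial (Fin (1 + 1)) K) * h3 - (C α) * h2
    have h5 : C (β0 * α - α0 * β) * pderiv 1 u = 0 := by
      simp only [map_sub, map_mul]
      linear_combination (C β0 : MvPolynomial (Fin (1 + 1)) K) * h3 - (C β) * h2
    have hC : (C (β0 * α - α0 * β) : MvPolynomial (Fin (1 + 1)) K) ≠ 0 :=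
      fun h6 => hc (C_eq_zero.1 h6)
    apply hu0
    refine eq_zero_of_pderiv (m := w i - 1) (by omega) huhom fun a => ?_
    fin_cases a
    · exact (mul_eq_zero.1 h4).resolve_left hC
    · exact (mul_eq_zero.1 h5).resolve_left hC

end Pool.Agent.Q78.FO
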