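import Mathlib
import Pool.Agent.Q78.FO.Tangent

set_option autoImplicit false

/-!
# The superabundance of the systems without multiple fixed curves
-/

namespace Pool.Agent.Q78.FO

open MvPolynomial Pool.Agent.Q78.GW Pool.Agent.H932R5

variable {K : Type} [Field K] [CharZero K] {n : ℕ} {P : Fin n → Fin (1 + 1) → K}

/-- The superabundance of a nonempty system, if the leading forms one degree below the
multiplicities have dimension at least two. -/
theorem hs_le_two (hP : AlgebraicIndependent ℚ (fun q : Fin n × Fin (1 + 1) => P q.1 q.2)) (d : ℕ)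
    (w : Fin n → ℕ) (Y : Finset ℕ) (hY : ∀ k, 2 ≤ w k → w k ∈ Y ∨ w k + 1 ∈ Y)
    (hne : Lw d P w ≠ ⊥)
    (h2le : ∀ k, 2 ≤ w k →
      2 ≤ Module.finrank K ↥(Wl d P (Function.update w k (w k - 1)) k)) :
    hs d P w ≤ ∑ y ∈ Y, ((y - 1).choose 2 : ℤ) := by
  classical
  obtain ⟨Y', hY'⟩ : ∃ Y', Y' = insert 1 Y := ⟨_, rfl⟩
  have h1Y : 1 ∈ Y' := hY' ▸ Finset.mem_insert_self _ _
  have hYY : ∀ y ∈ Y, y ∈ Y' := fun y hy => hY' ▸ Finset.mem_insert_of_mem hy
  have hex : ∀ k, ∃ y : ↥Y', w k = y.1 ∨ w k + 1 = y.1 := by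
    intro k
    by_cases h : 2 ≤ w k
    · rcases hY k h with h1 | h1
      · exact ⟨⟨w k, hYY _ h1⟩, Or.inl rfl⟩
      · exact ⟨⟨w k + 1, hYY _ h1⟩, Or.inr rfl⟩
    · refine ⟨⟨1, h1Y⟩, ?_⟩
      show w k = 1 ∨ w k + 1 = 1
      omega
  choose lab hlab using hex
  obtain ⟨z, hz⟩ : ∃ z : ↥Y' → ℕ, z = fun y => if ∃ k, lab k = y ∧ w k = y.1 then y.1 else
      if ∃ k, lab k = y then y.1 - 1 else 0 := ⟨_, rfl⟩
  have hz1 : ∀ y, (∃ k, lab k = y ∧ w k = y.1) → z y = y.1 := fun y h => by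
    rw [hz]
    exact if_pos h
  have hz2 : ∀ y, (¬ ∃ k, lab k = y ∧ w k = y.1) → (∃ k, lab k = y) → z y = y.1 - 1 :=
    fun y h h' => by
    rw [hz]
    show (if ∃ k, lab k = y ∧ w k = y.1 then y.1 else
      if ∃ k, lab k = y then y.1 - 1 else 0) = y.1 - 1
    rw [if_neg h, if_pos h']
  have hz3 : ∀ y, (¬ ∃ k, lab k = y) → z y = 0 := fun y h => by
    rw [hz]
    show (if ∃ k, lab k = y ∧ w k = y.1 then y.1 else
      if ∃ k, lab k = y then y.1 - 1 else 0) = 0
    rw [if_neg fun h' => h ⟨h'.choose, h'.choose_spec.1⟩, if_neg h]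
  have h1 := groups lab hP d (∑ k, w k) w z (fun y => y.1 - 2) rfl ?_ ?_ ?_ hne
  · refine h1.trans (le_of_eq ?_)
    have h2 : ∀ y : ↥Y', (((y.1 - 2 + 1).choose 2 : ℕ) : ℤ) = ((y.1 - 1).choose 2 : ℤ) := by
      intro y
      rcases Nat.lt_or_ge y.1 2 with h3 | h3
      · have e : y.1 - 2 + 1 = 1 := by omega
        have e' : y.1 - 1 = 0 := by omega
        rw [e, e']
        rfl
      · have e : y.1 - 2 + 1 = y.1 - 1 := by omega
        rw [e]
    rw [Finset.sum_congr rfl fun y _ => h2 y,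
      Finset.sum_coe_sort Y' fun y => ((y - 1).choose 2 : ℤ), hY']
    by_cases h3 : 1 ∈ Y
    · rw [Finset.insert_eq_of_mem h3]
    · rw [Finset.sum_insert h3]
      simp
  · intro k
    by_cases h2 : ∃ l, lab l = lab k ∧ w l = (lab k).1
    · rw [hz1 _ h2]
      exact hlab k
    · rw [hz2 _ h2 ⟨k, rfl⟩]
      left
      rcases hlab k with h3 | h3
      · exact absurd ⟨k, rfl, h3⟩ h2
      · omega
  · intro y hy
    by_cases h2 : ∃ l, lab l = y ∧ w l = y.1
    · rw [hz1 _ h2]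
      exact h2
    · by_cases h3 : ∃ l, lab l = y
      · rw [hz2 _ h2 h3]
        obtain ⟨l, hl⟩ := h3
        refine ⟨l, hl, ?_⟩
        rcases hlab l with h4 | h4
        · exact absurd ⟨l, hl, by rw [h4, hl]⟩ h2
        · rw [hl] at h4
          omega
      · exact absurd (hz3 _ h3) hy
  · intro k _ hk0
    have hle : Function.update w k (w k - 1) ≤ w := by
      intro l
      by_cases hl : l = k
      · rw [hl, Function.update_self]
        exact Nat.sub_le _ _
      · rw [Function.update_of_ne hl]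
    have hne' : Lw d P (Function.update w k (w k - 1)) ≠ ⊥ := fun h =>
      hne (le_bot_iff.1 ((Lw_mono hle).trans (le_of_eq h)))
    show cd d P (Function.update w k (w k - 1)) k ≤ (lab k).1 - 2
    by_cases hk2 : 2 ≤ w k
    · have h2 := cd_add d P (Function.update w k (w k - 1)) k
      rw [Function.update_self, Nat.choose_one_right] at h2
      have h3 := h2le k hk2
      rcases hlab k with h4 | h4 <;> omega
    · have h2 : w k - 1 = 0 := by omega
      have h3 := cd_zero_of_one hP (d := d) (u := Function.update w k (w k - 1)) (i := k) hne'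
        (by rw [Function.update_self, h2])
      omega

/-- **Either a multiple fixed curve through one of the points, or a bounded superabundance.** -/
theorem gen_segre (hP : AlgebraicIndependent ℚ (fun q : Fin n × Fin (1 + 1) => P q.1 q.2)) (d : ℕ)
    (w : Fin n → ℕ) (Y : Finset ℕ) (hY : ∀ k, 2 ≤ w k → w k ∈ Y ∨ w k + 1 ∈ Y)
    (hne : Lw d P w ≠ ⊥) (hbig : ∑ y ∈ Y, ((y - 1).choose 2 : ℤ) < hs d P w) :
    ∃ i, 2 ≤ w i ∧ ∃ g : MvPolynomial (Fin 2) K, g ≠ 0 ∧ eval (P i) g = 0 ∧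
      ∀ f ∈ Lw d P w, g ^ (w i) ∣ f := by
  by_contra hcon
  refine absurd (hs_le_two hP d w Y hY hne fun k hk => ?_) (not_le.2 hbig)
  refine two_le hP hk hne ?_
  rintro ⟨v, hv, hkill⟩
  exact hcon ⟨k, hk, curve_of_kill hP (by omega) hne hv hkill⟩

end Pool.Agent.Q78.FO
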