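import Mathlib

set_option autoImplicit false

/-!
# Multiple curves through a point are not isolated singularities
-/

namespace Pool.Agent.Q78.FO

open MvPolynomial

/-- The singular locus of the plane curve `D = 0` has no component of positive dimension which
passes through the point with the homogeneous coordinates `p`: there is a form `g`, not zero at
`p`, such that every common zero of the partial derivatives of `D` at which `g` is not zero is a
multiple of `p`. -/
def IsolatedAt (D : MvPolynomial (Fin 3) ℂ) (p : Fin 3 → ℂ) : Prop :=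
  ∃ (e : ℕ) (g : MvPolynomial (Fin 3) ℂ), g.IsHomogeneous e ∧ eval p g ≠ 0 ∧
    ∀ q : Fin 3 → ℂ, (∀ j, eval q (pderiv j D) = 0) → eval q g ≠ 0 → ∃ t : ℂ, q = t • p

theorem eval_pderiv_zero {D H : MvPolynomial (Fin 3) ℂ} (h : H ^ 2 ∣ D) {q : Fin 3 → ℂ}
    (hq : eval q H = 0) (j : Fin 3) : eval q (pderiv j D) = 0 := by
  obtain ⟨R, rfl⟩ := h
  rw [Derivation.leibniz, Derivation.leibniz_pow]
  simp [hq]

theorem exists_prime_zero {H : MvPolynomial (Fin 3) ℂ} (hH : H ≠ 0) {p : Fin 3 → ℂ}
    (hp : eval p H = 0) : ∃ π : MvPolynomial (Fin 3) ℂ, Prime π ∧ π ∣ H ∧ eval p π = 0 := by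
  classical
  obtain ⟨u, hu⟩ := UniqueFactorizationMonoid.factors_prod hH
  have h1 : eval p (UniqueFactorizationMonoid.factors H).prod = 0 := by
    have h2 : eval p (UniqueFactorizationMonoid.factors H).prod * eval p (u : MvPolynomial (Fin 3) ℂ)
        = 0 := by
      rw [← map_mul, hu, hp]
    rcases mul_eq_zero.1 h2 with h | h
    · exact h
    · exact absurd h (IsUnit.ne_zero (u.isUnit.map (eval p)))
  rw [map_multiset_prod, Multiset.prod_eq_zero_iff, Multiset.mem_map] at h1
  obtain ⟨π, hπ, h0⟩ := h1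
  exact ⟨π, UniqueFactorizationMonoid.prime_of_factor π hπ,
    UniqueFactorizationMonoid.dvd_of_mem_factors hπ, h0⟩

/-- A prime form cannot divide two independent linear forms. -/
theorem not_two_lines {π : MvPolynomial (Fin 3) ℂ} (hπ : Prime π) (a b : ℂ)
    (h1 : π ∣ X 1 - C a * X 0) (h2 : π ∣ X 2 - C b * X 0) : False := by
  have key : ∀ (i : Fin 3) (c : ℂ), i ≠ 0 → π ∣ X i - C c * X 0 →
      ∃ y : ℂ, (X i - C c * X 0 : MvPolynomial (Fin 3) ℂ) = π * C y := by
    rintro i c hi ⟨A, hA⟩
    have hne : (X i - C c * X 0 : MvPolynomial (Fin 3) ℂ) ≠ 0 := by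
      intro h0
      have h3 := congrArg (eval (Pi.single i 1 : Fin 3 → ℂ)) h0
      simp [hi.symm] at h3
    have hA0 : A ≠ 0 := by
      rintro rfl
      exact hne (by rw [hA, mul_zero])
    have hdeg : (X i - C c * X 0 : MvPolynomial (Fin 3) ℂ).totalDegree ≤ 1 := by
      refine (totalDegree_sub _ _).trans (max_le (totalDegree_X _).le ?_)
      refine (totalDegree_mul _ _).trans ?_
      rw [totalDegree_C, zero_add]
      exact (totalDegree_X _).le
    rw [hA, totalDegree_mul_of_isDomain hπ.ne_zero hA0] at hdeg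
    have hπ1 : π.totalDegree ≠ 0 := by
      intro h0
      rw [totalDegree_eq_zero_iff_eq_C] at h0
      apply hπ.not_isUnit
      rw [h0]
      refine (IsUnit.mk0 _ ?_).map (C : ℂ →+* MvPolynomial (Fin 3) ℂ)
      intro h4
      rw [h4, C_0] at h0
      exact hπ.ne_zero h0
    have hA1 : A.totalDegree = 0 := by omega
    rw [totalDegree_eq_zero_iff_eq_C] at hA1
    exact ⟨A.coeff 0, by rw [hA, ← hA1]⟩
  obtain ⟨y, hy⟩ := key 1 a (by decide) h1
  obtain ⟨z, hz⟩ := key 2 b (by decide) h2
  have h3 : (X 1 - C a * X 0 : MvPolynomial (Fin 3) ℂ) * C z = (X 2 - C b * X 0) * C y := by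
    rw [hy, hz]
    ring
  have h4 := congrArg (eval (![0, 1, 0] : Fin 3 → ℂ)) h3
  simp at h4
  rw [h4, C_0, mul_zero] at hz
  have h5 := congrArg (eval (![0, 0, 1] : Fin 3 → ℂ)) hz
  simp at h5

/-- A curve which contains a curve through `p` twice has no isolated singularity at `p`. -/
theorem not_isolated {D H : MvPolynomial (Fin 3) ℂ} (hdvd : H ^ 2 ∣ D) (hH : H ≠ 0) (a b : ℂ)
    (hp : eval ![1, a, b] H = 0) : ¬ IsolatedAt D ![1, a, b] := by
  rintro ⟨e, g, -, hgp, hall⟩
  obtain ⟨π, hπ, hπH, hπp⟩ := exists_prime_zero hH hp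
  have key : ∀ l : MvPolynomial (Fin 3) ℂ, (∀ t : ℂ, eval (t • (![1, a, b] : Fin 3 → ℂ)) l = 0) →
      π ∣ l := by
    intro l hl
    have h1 : l * g ∈ (Ideal.span {H} : Ideal (MvPolynomial (Fin 3) ℂ)).radical := by
      rw [← MvPolynomial.vanishingIdeal_zeroLocus_eq_radical (K := ℂ)]
      rw [MvPolynomial.mem_vanishingIdeal_iff]
      intro q hq
      have hqH : eval q H = 0 := by
        have h2 := hq H (Ideal.mem_span_singleton_self H)
        simpa [MvPolynomial.aeval_eq_eval] using h2
      have h3 : eval q (l * g) = 0 := by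
        rw [map_mul]
        by_cases hg : eval q g = 0
        · rw [hg, mul_zero]
        · obtain ⟨t, rfl⟩ := hall q (fun j => eval_pderiv_zero hdvd hqH j) hg
          rw [hl t, zero_mul]
      simpa [MvPolynomial.aeval_eq_eval] using h3
    obtain ⟨N, hN⟩ := h1
    rw [Ideal.mem_span_singleton] at hN
    rcases hπ.dvd_or_dvd (hπ.dvd_of_dvd_pow (hπH.trans hN)) with h | h
    · exact h
    · obtain ⟨R, rfl⟩ := h
      exact absurd (by rw [map_mul, hπp, zero_mul]) hgp
  refine not_two_lines hπ a b (key _ fun t => ?_) (key _ fun t => ?_)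
  · simp
    ring
  · simp
    ring

end Pool.Agent.Q78.FO
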