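import Mathlib
import Pool.Agent.Q78.FO.Dvd

set_option autoImplicit false

/-!
# Orders of products
-/

namespace Pool.Agent.Q78.FO

open MvPolynomial Pool.Agent.Q78.GW Pool.Agent.H932R5

variable {K : Type} [Field K]

theorem ordp_iff {p : Fin 2 → K} {m : ℕ} {f : MvPolynomial (Fin 2) K} :
    Ordp p m f ↔ (m : ℕ∞) ≤ ((shift (E := 1) p f : MvPolynomial (Fin 2) K) :
      MvPowerSeries (Fin 2) K).order := by
  constructor
  · intro h
    refine MvPowerSeries.le_order fun α hα => ?_
    rw [coeff_coe]
    exact h α (by exact_mod_cast hα)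
  · intro h α hα
    rw [← coeff_coe]
    refine MvPowerSeries.coeff_of_lt_order (lt_of_lt_of_le ?_ h)
    exact_mod_cast hα

theorem ord_mul (p : Fin 2 → K) (f g : MvPolynomial (Fin 2) K) :
    ((shift (E := 1) p (f * g) : MvPolynomial (Fin 2) K) : MvPowerSeries (Fin 2) K).order =
      ((shift (E := 1) p f : MvPolynomial (Fin 2) K) : MvPowerSeries (Fin 2) K).order +
      ((shift (E := 1) p g : MvPolynomial (Fin 2) K) : MvPowerSeries (Fin 2) K).order := by
  rw [map_mul, MvPolynomial.coe_mul, MvPowerSeries.order_mul]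

theorem ord_pow (p : Fin 2 → K) (f : MvPolynomial (Fin 2) K) (m : ℕ) :
    ((shift (E := 1) p (f ^ m) : MvPolynomial (Fin 2) K) : MvPowerSeries (Fin 2) K).order =
      m * ((shift (E := 1) p f : MvPolynomial (Fin 2) K) : MvPowerSeries (Fin 2) K).order := by
  induction m with
  | zero =>
    rw [pow_zero, map_one, MvPolynomial.coe_one, Nat.cast_zero, zero_mul]
    refine le_antisymm ?_ bot_le
    refine (MvPowerSeries.order_le (d := 0) ?_).trans (le_of_eq ?_)
    · simp
    · simp
  | succ m ih =>
    rw [pow_succ, ord_mul, ih, Nat.cast_succ, add_mul, one_mul]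

/-- The order of a nonzero polynomial. -/
theorem exists_ord (p : Fin 2 → K) {f : MvPolynomial (Fin 2) K} (hf : f ≠ 0) : ∃ μ : ℕ,
    ((shift (E := 1) p f : MvPolynomial (Fin 2) K) : MvPowerSeries (Fin 2) K).order = μ := by
  have h1 : ((shift (E := 1) p f : MvPolynomial (Fin 2) K) : MvPowerSeries (Fin 2) K) ≠ 0 := by
    intro h
    apply hf
    have h2 : shift (E := 1) p f = 0 := by
      rw [← MvPolynomial.coe_zero] at h
      exact MvPolynomial.coe_injective _ _ h
    rw [← shift_shift (E := 1) p f, h2, map_zero]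
  exact ⟨_, (MvPowerSeries.ne_zero_iff_order_finite.1 h1).symm⟩

theorem ordp_of_eval {p : Fin 2 → K} {f : MvPolynomial (Fin 2) K} (hf : eval p f = 0) :
    Ordp p 1 f := by
  intro α hα
  have h1 : α = 0 := by
    rw [← Finsupp.degree_eq_zero_iff]
    omega
  rw [h1]
  have h2 : ∀ f : MvPolynomial (Fin 2) K, coeff 0 (shift (E := 1) p f) = eval p f := by
    intro f
    induction f using MvPolynomial.induction_on with
    | C c => simp
    | add f g hf hg => simp [hf, hg]
    | mul_X f j hf =>
      rw [map_mul, map_mul, shift_X, eval_X, ← hf]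
      have h3 : ∀ A B : MvPolynomial (Fin 2) K, coeff 0 (A * B) = coeff 0 A * coeff 0 B := by
        intro A B
        exact map_mul (constantCoeff (R := K) (σ := Fin 2)) A B
      rw [h3]
      congr 1
      simp
  rw [h2, hf]

end Pool.Agent.Q78.FO
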