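import Mathlib
import Pool.Agent.Q78.FO.Bound
import Pool.Agent.Q78.FO.Ord

set_option autoImplicit false

/-!
# From the generic points to general points
-/

namespace Pool.Agent.Q78.FO

open MvPolynomial Pool.Agent.Q78.GW Pool.Agent.H932R5

section

variable {K : Type} [Field K] {n : ℕ}

theorem td_iff {d : ℕ} {f : MvPolynomial (Fin (1 + 1)) K} :
    (∀ α, d < Finsupp.degree α → coeff α f = 0) ↔ f.totalDegree ≤ d := by
  constructor
  · intro h
    refine Finset.sup_le fun α hα => ?_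
    by_contra h1
    exact (mem_support_iff.1 hα) (h α (not_le.1 h1))
  · intro h α hα
    by_contra h1
    exact absurd ((le_totalDegree (mem_support_iff.2 h1)).trans h) (not_le.2 hα)

theorem mem_Lw' {d : ℕ} {P : Fin n → Fin (1 + 1) → K} {w : Fin n → ℕ}
    {f : MvPolynomial (Fin (1 + 1)) K} :
    f ∈ Lw d P w ↔ f.totalDegree ≤ d ∧ ∀ i, (w i : ℕ∞) ≤ ((shift (E := 1) (P i) f :
      MvPolynomial (Fin 2) K) : MvPowerSeries (Fin 2) K).order := by
  rw [mem_Lw, td_iff]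
  exact and_congr Iff.rfl (forall_congr' fun i => ordp_iff)

theorem td_pow {g : MvPolynomial (Fin (1 + 1)) K} (hg : g ≠ 0) (m : ℕ) :
    (g ^ m).totalDegree = m * g.totalDegree := by
  induction m with
  | zero => simp
  | succ m ih =>
    rw [pow_succ, totalDegree_mul_of_isDomain (pow_ne_zero m hg) hg, ih, Nat.succ_mul]

theorem mulLeft_inj {g : MvPolynomial (Fin (1 + 1)) K} (hg : g ≠ 0) :
    Function.Injective (LinearMap.mulLeft K g) := by
  intro a b hab
  rw [LinearMap.mulLeft_apply, LinearMap.mulLeft_apply] at hab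
  exact mul_left_cancel₀ hg hab

theorem finrank_map_mul {g : MvPolynomial (Fin (1 + 1)) K} (hg : g ≠ 0)
    (V : Submodule K (MvPolynomial (Fin (1 + 1)) K)) :
    Module.finrank K ↥(V.map (LinearMap.mulLeft K g)) = Module.finrank K ↥V :=
  (Submodule.equivMapOfInjective _ (mulLeft_inj hg) V).finrank_eq.symm

/-- Removing a common factor. -/
theorem le_map {d : ℕ} {P : Fin n → Fin (1 + 1) → K} {w μ : Fin n → ℕ}
    {g : MvPolynomial (Fin (1 + 1)) K} (hg : g ≠ 0) {m : ℕ}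
    (hμ : ∀ j, ((shift (E := 1) (P j) g : MvPolynomial (Fin 2) K) :
      MvPowerSeries (Fin 2) K).order = μ j) (hdvd : ∀ f ∈ Lw d P w, g ^ m ∣ f) :
    Lw d P w ≤ (Lw (d - m * g.totalDegree) P (fun j => w j - m * μ j)).map
      (LinearMap.mulLeft K (g ^ m)) := by
  intro f hf
  by_cases hf0 : f = 0
  · rw [hf0]
    exact Submodule.zero_mem _
  obtain ⟨h, rfl⟩ := hdvd f hf
  have hh0 : h ≠ 0 := right_ne_zero_of_mul hf0
  refine ⟨h, ?_, rfl⟩
  rw [mem_Lw'] at hf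
  obtain ⟨h1, h2⟩ := hf
  rw [SetLike.mem_coe, mem_Lw']
  refine ⟨?_, fun j => ?_⟩
  · rw [totalDegree_mul_of_isDomain (pow_ne_zero m hg) hh0, td_pow hg] at h1
    omega
  · have h3 := h2 j
    rw [ord_mul, ord_pow, hμ] at h3
    rw [ENat.natCast_sub, tsub_le_iff_left]
    rwa [Nat.cast_mul]

/-- Multiplying by a common factor. -/
theorem map_le {d e m : ℕ} (hd : m * e ≤ d) {P : Fin n → Fin (1 + 1) → K} {w μ : Fin n → ℕ}
    {g : MvPolynomial (Fin (1 + 1)) K} (hg0 : g ≠ 0) (hg : g ∈ Lw e P μ) :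
    (Lw (d - m * e) P (fun j => w j - m * μ j)).map (LinearMap.mulLeft K (g ^ m)) ≤
      Lw d P w := by
  rintro _ ⟨h, hh, rfl⟩
  rw [LinearMap.mulLeft_apply]
  rw [SetLike.mem_coe, mem_Lw'] at hh
  rw [mem_Lw'] at hg
  obtain ⟨h1, h2⟩ := hh
  obtain ⟨h3, h4⟩ := hg
  rw [mem_Lw']
  refine ⟨?_, fun j => ?_⟩
  · refine (totalDegree_mul _ _).trans ?_
    rw [td_pow hg0]
    have h5 := Nat.mul_le_mul_left m h3
    omega
  · rw [ord_mul, ord_pow]
    have h5 := h2 j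
    rw [ENat.natCast_sub, tsub_le_iff_left] at h5
    refine h5.trans (add_le_add ?_ le_rfl)
    rw [Nat.cast_mul]
    exact mul_le_mul_right (h4 j) _

end

/-- **Either a multiple fixed curve through one of the points, or a bounded superabundance**, for
points outside of a hypersurface. -/
theorem open_segre {n : ℕ} (d : ℕ) (w : Fin n → ℕ) :
    ∃ F : MvPolynomial (Fin n × Fin (1 + 1)) ℚ, F ≠ 0 ∧
      ∀ (K : Type) [Field K] [CharZero K] (P : Fin n → Fin (1 + 1) → K), evq P F ≠ 0 →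
        Lw d P w ≠ ⊥ → ∀ Y : Finset ℕ, (∀ k, 2 ≤ w k → w k ∈ Y ∨ w k + 1 ∈ Y) →
        ∑ y ∈ Y, ((y - 1).choose 2 : ℤ) < hs d P w →
        ∃ i, 2 ≤ w i ∧ ∃ g : MvPolynomial (Fin (1 + 1)) K, g ≠ 0 ∧ eval (P i) g = 0 ∧
          ∀ f ∈ Lw d P w, g ^ (w i) ∣ f := by
  classical
  obtain ⟨K0, i1, i2, P0, hP0⟩ := Pool.Agent.Q78.GW.exists_gen n 1
  obtain ⟨F, hF, hF'⟩ := open_dim w d hP0
  refine ⟨F, hF, fun K _ _ P hP hne Y hY hbig => ?_⟩
  have h1 := hF' K P hP
  have h2 := dim_eq d P w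
  have h3 := dim_eq d P0 w
  have i3 := Lw_fin d P w
  have i4 := Lw_fin d P0 w
  have hne0 : Lw d P0 w ≠ ⊥ := by
    intro h
    apply hne
    rw [h, finrank_bot] at h1
    exact Submodule.finrank_eq_zero.1 h1
  have hbig0 : ∑ y ∈ Y, ((y - 1).choose 2 : ℤ) < hs d P0 w := by
    have h4 : hs d P0 w = hs d P w := by
      rw [h1] at h2
      linarith
    rwa [h4]
  obtain ⟨i, hi, g, hg0, hgi, hdvd⟩ := gen_segre hP0 d w Y hY hne0 hbig0
  choose μ hμ using fun j => exists_ord (P0 j) hg0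
  obtain ⟨m, hm⟩ : ∃ m, m = w i := ⟨_, rfl⟩
  rw [← hm] at hdvd hi
  obtain ⟨e, he⟩ : ∃ e, e = g.totalDegree := ⟨_, rfl⟩
  have hme : m * e ≤ d := by
    obtain ⟨f0, hf0, hf00⟩ := Submodule.exists_mem_ne_zero_of_ne_bot hne0
    obtain ⟨r, rfl⟩ := hdvd f0 hf0
    have h5 := (mem_Lw'.1 hf0).1
    rw [totalDegree_mul_of_isDomain (pow_ne_zero m hg0) (right_ne_zero_of_mul hf00),
      td_pow hg0, ← he] at h5
    omega
  -- the curve
  have hgmem : g ∈ Lw e P0 μ := by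
    rw [mem_Lw']
    exact ⟨he.symm.le, fun j => (hμ j).symm.le⟩
  have hμi : 1 ≤ μ i := by
    have h5 := ordp_iff.1 (ordp_of_eval hgi)
    rw [hμ i] at h5
    exact_mod_cast h5
  have hex : ∃ G ∈ Lw e P μ, G ≠ 0 := by
    have h5 := semi hP0 P μ e
    have i5 := Lw_fin e P0 μ
    have h6 : Module.finrank K0 ↥(Lw e P0 μ) ≠ 0 := by
      intro h7
      have h8 := Submodule.finrank_eq_zero.1 h7
      rw [h8, Submodule.mem_bot] at hgmem
      exact hg0 hgmem
    refine Submodule.exists_mem_ne_zero_of_ne_bot fun h7 => ?_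
    rw [h7, finrank_bot] at h5
    omega
  obtain ⟨G, hG, hG0⟩ := hex
  -- the residual systems
  have i6 := Lw_fin (d - m * g.totalDegree) P0 (fun j => w j - m * μ j)
  have i7 : FiniteDimensional K0 ↥((Lw (d - m * g.totalDegree) P0 (fun j => w j - m * μ j)).map
      (LinearMap.mulLeft K0 (g ^ m))) := inferInstance
  have h5 := Submodule.finrank_mono (le_map hg0 hμ hdvd)
  rw [finrank_map_mul (pow_ne_zero m hg0), ← he] at h5
  have h6 := semi hP0 P (fun j => w j - m * μ j) (d - m * e)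
  have h7 := map_le (w := w) hme hG0 hG
  have h8 : (Lw (d - m * e) P (fun j => w j - m * μ j)).map (LinearMap.mulLeft K (G ^ m)) =
      Lw d P w := by
    refine Submodule.eq_of_le_of_finrank_le h7 ?_
    rw [finrank_map_mul (pow_ne_zero m hG0)]
    omega
  refine ⟨i, hm ▸ hi, G, hG0, ?_, fun f hf => ?_⟩
  · exact eval_of_ordp (hG.2 i |> fun h => fun α hα => h α (lt_of_lt_of_le hα hμi))
  · rw [← h8] at hf
    obtain ⟨r, _, rfl⟩ := hf
    rw [← hm]
    exact dvd_mul_right _ _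

theorem deh_cons {K : Type} [Field K] (p : Fin (1 + 1) → K) (G : MvPolynomial (Fin (1 + 2)) K) :
    eval (Fin.cons 1 p : Fin (1 + 2) → K) G = eval p (deh K 1 G) := by
  induction G using MvPolynomial.induction_on with
  | C c => rw [deh_C, eval_C, eval_C]
  | add f g hf hg => rw [map_add, map_add, map_add, hf, hg]
  | mul_X f j hf =>
    rw [map_mul, map_mul, map_mul, hf, eval_X]
    congr 1
    refine Fin.cases ?_ (fun j => ?_) j
    · rw [Fin.cons_zero, deh_X0, map_one]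
    · rw [Fin.cons_succ, deh_X, eval_X]

/-- The version with forms in three variables. -/
theorem general_segre (n : ℕ) (w : Fin n → ℕ) (d : ℕ) :
    ∃ F : MvPolynomial (Fin n × Fin (1 + 1)) ℂ, F ≠ 0 ∧ ∀ P : Fin n → Fin (1 + 1) → ℂ,
      eval (fun q : Fin n × Fin (1 + 1) => P q.1 q.2) F ≠ 0 →
      Module.finrank ℂ ↥(Vd d w P) ≠ 0 →
      ∀ Y : Finset ℕ, (∀ k, 2 ≤ w k → w k ∈ Y ∨ w k + 1 ∈ Y) →
      nv 1 w d + ∑ y ∈ Y, ((y - 1).choose 2 : ℤ) < Module.finrank ℂ ↥(Vd d w P) →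
      ∃ i, 2 ≤ w i ∧ ∃ (e : ℕ) (G : MvPolynomial (Fin (1 + 2)) ℂ), 0 < e ∧ G.IsHomogeneous e ∧
        G ≠ 0 ∧ eval (Fin.cons 1 (P i) : Fin (1 + 2) → ℂ) G = 0 ∧ ∀ f ∈ Vd d w P, G ^ (w i) ∣ f := by
  obtain ⟨F, hF, hF'⟩ := open_segre d w
  refine ⟨F.map (algebraMap ℚ ℂ), fun h => hF ?_, fun P hP hne Y hY hbig => ?_⟩
  · refine MvPolynomial.map_injective (algebraMap ℚ ℂ) (algebraMap ℚ ℂ).injective ?_
    rw [h, map_zero]
  rw [eval_map_eq] at hP
  have h1 : Module.finrank ℂ ↥(Vd d w P) = Module.finrank ℂ ↥(Lw d P w) := by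
    rw [finrank_Vd_eq, ← Lw_eq]
  rw [h1] at hne hbig
  have hne' : Lw d P w ≠ ⊥ := by
    intro h
    apply hne
    rw [h, finrank_bot]
  obtain ⟨i, hi, g, hg0, hgi, hdvd⟩ := hF' ℂ P hP hne' Y hY (by
    have h2 := dim_eq d P w
    linarith)
  obtain ⟨G, hG, hGg⟩ := deh_surj (K := ℂ) (E := 1) (d := g.totalDegree) (f := g) (by
    rw [mem_mspan]
    intro s hs
    exact le_totalDegree (mem_support_iff.2 hs))
  have hG0 : G ≠ 0 := by
    rintro rfl
    rw [map_zero] at hGg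
    exact hg0 hGg.symm
  refine ⟨i, hi, g.totalDegree, G, ?_, hG, hG0, ?_, fun f hf => ?_⟩
  · by_contra h
    have h2 : g.totalDegree = 0 := by omega
    rw [totalDegree_eq_zero_iff_eq_C] at h2
    rw [h2, eval_C] at hgi
    rw [hgi, C_0] at h2
    exact hg0 h2
  · rw [deh_cons, hGg, hgi]
  · by_cases hf0 : f = 0
    · rw [hf0]
      exact dvd_zero _
    obtain ⟨hf1, hf2⟩ := mem_Vd.1 hf
    have h3 : deh ℂ 1 f ∈ Lw d P w := by
      rw [Lw_eq]
      exact Submodule.mem_inf.2 ⟨deh_mem hf1, hf2⟩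
    have h4 : deh ℂ 1 f ≠ 0 := fun h => hf0 (deh_inj hf1 h)
    obtain ⟨r, hr⟩ := hdvd _ h3
    have hr0 : r ≠ 0 := by
      rintro rfl
      rw [mul_zero] at hr
      exact h4 hr
    have h5 : w i * g.totalDegree + r.totalDegree ≤ d := by
      have h6 := (mem_Lw'.1 h3).1
      rw [hr, totalDegree_mul_of_isDomain (pow_ne_zero _ hg0) hr0, td_pow hg0] at h6
      exact h6
    obtain ⟨R, hR, hRr⟩ := deh_surj (K := ℂ) (E := 1) (d := d - w i * g.totalDegree) (f := r) (by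
      rw [mem_mspan]
      intro s hs
      have h6 := le_totalDegree (mem_support_iff.2 hs)
      show Finsupp.degree s ≤ _
      change Finsupp.degree s ≤ _ at h6
      omega)
    refine ⟨R, sub_eq_zero.1 (deh_inj (d := d) (hf1.sub ?_) ?_)⟩
    · have h6 := (hG.pow (w i)).mul hR
      have e : g.totalDegree * w i + (d - w i * g.totalDegree) = d := by
        rw [mul_comm]
        omega
      rwa [e] at h6
    · rw [map_sub, map_mul, map_pow, hGg, hRr, ← hr, sub_self]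

end Pool.Agent.Q78.FO
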