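import Mathlib
import Pool.Agent.Q78.FO.Open

set_option autoImplicit false

/-!
# Splitting off the multiple fixed curves
-/

namespace Pool.Agent.Q78.FO

open MvPolynomial Pool.Agent.Q78.GW Pool.Agent.H932R5

variable {K : Type} [Field K] {n : ℕ}

/-- Every nonempty system is the square of a curve times a system without multiple fixed curves. -/
theorem split (P : Fin n → Fin (1 + 1) → K) : ∀ (d : ℕ) (w : Fin n → ℕ), Lw d P w ≠ ⊥ →
    ∃ (g : MvPolynomial (Fin (1 + 1)) K) (w' : Fin n → ℕ), g ≠ 0 ∧ 2 * g.totalDegree ≤ d ∧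
      w' ≤ w ∧ Lw d P w = (Lw (d - 2 * g.totalDegree) P w').map (LinearMap.mulLeft K (g ^ 2)) ∧
      ∀ h, (∀ f ∈ Lw (d - 2 * g.totalDegree) P w', h ^ 2 ∣ f) → h.totalDegree = 0 := by
  intro d
  induction d using Nat.strong_induction_on with
  | _ d ih =>
  intro w hne
  by_cases hex : ∃ h, (∀ f ∈ Lw d P w, h ^ 2 ∣ f) ∧ h.totalDegree ≠ 0
  · obtain ⟨h, hdvd, hh⟩ := hex
    have hh0 : h ≠ 0 := by
      rintro rfl
      exact hh totalDegree_zero
    choose μ hμ using fun j => exists_ord (P j) hh0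
    have hd : 2 * h.totalDegree ≤ d := by
      obtain ⟨f0, hf0, hf00⟩ := Submodule.exists_mem_ne_zero_of_ne_bot hne
      obtain ⟨r, rfl⟩ := hdvd f0 hf0
      have h5 := (mem_Lw'.1 hf0).1
      rw [totalDegree_mul_of_isDomain (pow_ne_zero 2 hh0) (right_ne_zero_of_mul hf00),
        td_pow hh0] at h5
      omega
    have hmem : h ∈ Lw h.totalDegree P μ := by
      rw [mem_Lw']
      exact ⟨le_rfl, fun j => (hμ j).symm.le⟩
    have heq : Lw d P w = (Lw (d - 2 * h.totalDegree) P (fun j => w j - 2 * μ j)).map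
        (LinearMap.mulLeft K (h ^ 2)) :=
      le_antisymm (le_map hh0 hμ hdvd) (map_le hd hh0 hmem)
    have hne1 : Lw (d - 2 * h.totalDegree) P (fun j => w j - 2 * μ j) ≠ ⊥ := by
      intro h1
      rw [h1, Submodule.map_bot] at heq
      exact hne heq
    obtain ⟨g, w', hg0, hgd, hw', hgeq, hgno⟩ := ih (d - 2 * h.totalDegree) (by omega) _ hne1
    have htd : (h * g).totalDegree = h.totalDegree + g.totalDegree :=
      totalDegree_mul_of_isDomain hh0 hg0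
    have e : d - 2 * (h * g).totalDegree = d - 2 * h.totalDegree - 2 * g.totalDegree := by
      rw [htd]
      omega
    refine ⟨h * g, w', mul_ne_zero hh0 hg0, ?_, fun j => (hw' j).trans (Nat.sub_le _ _), ?_, ?_⟩
    · rw [htd]
      omega
    · rw [e, heq, hgeq, ← Submodule.map_comp]
      congr 1
      refine LinearMap.ext fun f => ?_
      rw [LinearMap.comp_apply, LinearMap.mulLeft_apply, LinearMap.mulLeft_apply,
        LinearMap.mulLeft_apply]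
      ring
    · rw [e]
      exact hgno
  · push Not at hex
    refine ⟨1, w, one_ne_zero, ?_, le_rfl, ?_, ?_⟩
    · rw [totalDegree_one]
      omega
    · rw [totalDegree_one, mul_zero, Nat.sub_zero, one_pow, LinearMap.mulLeft_one,
        Submodule.map_id]
    · rw [totalDegree_one, mul_zero, Nat.sub_zero]
      exact hex

theorem mem_Vd' {d : ℕ} {w : Fin n → ℕ} {P : Fin n → Fin (1 + 1) → K}
    {F : MvPolynomial (Fin (1 + 2)) K} :
    F ∈ Vd d w P ↔ F.IsHomogeneous d ∧ deh K 1 F ∈ Lw d P w := by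
  rw [mem_Vd, Lw_eq, Submodule.mem_inf]
  exact ⟨fun h => ⟨h.1, deh_mem h.1, h.2⟩, fun h => ⟨h.1, h.2.2⟩⟩

theorem lift_Lw {d : ℕ} {w : Fin n → ℕ} {P : Fin n → Fin (1 + 1) → K}
    {r : MvPolynomial (Fin (1 + 1)) K} (hr : r ∈ Lw d P w) : ∃ R ∈ Vd d w P, deh K 1 R = r := by
  have h1 := hr
  rw [Lw_eq, Submodule.mem_inf] at h1
  obtain ⟨R, hR, hRr⟩ := deh_surj h1.1
  exact ⟨R, mem_Vd'.2 ⟨hR, hRr ▸ hr⟩, hRr⟩

theorem homog_two {e : ℕ} {d : ℕ} (hed : 2 * e ≤ d) {G R : MvPolynomial (Fin (1 + 2)) K}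
    (hG : G.IsHomogeneous e) (hR : R.IsHomogeneous (d - 2 * e)) :
    (G ^ 2 * R).IsHomogeneous d := by
  have h6 := (hG.pow 2).mul hR
  have e1 : e * 2 + (d - 2 * e) = d := by omega
  rwa [e1] at h6

/-- The splitting for forms. -/
theorem split_forms {d : ℕ} {w w' : Fin n → ℕ} {P : Fin n → Fin (1 + 1) → K}
    {g : MvPolynomial (Fin (1 + 1)) K} {G : MvPolynomial (Fin (1 + 2)) K} {e : ℕ}
    (hed : 2 * e ≤ d) (hG : G.IsHomogeneous e) (hGg : deh K 1 G = g)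
    (heq : Lw d P w = (Lw (d - 2 * e) P w').map (LinearMap.mulLeft K (g ^ 2)))
    (f : MvPolynomial (Fin (1 + 2)) K) :
    f ∈ Vd d w P ↔ ∃ f' ∈ Vd (d - 2 * e) w' P, f = G ^ 2 * f' := by
  constructor
  · intro hf
    obtain ⟨hf1, hf2⟩ := mem_Vd'.1 hf
    rw [heq] at hf2
    obtain ⟨r, hr, hrf⟩ := hf2
    rw [LinearMap.mulLeft_apply] at hrf
    obtain ⟨R, hR, hRr⟩ := lift_Lw hr
    refine ⟨R, hR, sub_eq_zero.1 (deh_inj (d := d) (hf1.sub ?_) ?_)⟩
    · exact homog_two hed hG (mem_Vd'.1 hR).1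
    · rw [map_sub, map_mul, map_pow, hGg, hRr, hrf, sub_self]
  · rintro ⟨f', hf', rfl⟩
    obtain ⟨h1, h2⟩ := mem_Vd'.1 hf'
    refine mem_Vd'.2 ⟨homog_two hed hG h1, ?_⟩
    rw [heq, map_mul, map_pow, hGg]
    exact ⟨_, h2, rfl⟩

/-- The line at infinity is not a fixed curve. -/
theorem no_mult {d : ℕ} {w : Fin n → ℕ} {P : Fin n → Fin (1 + 1) → K} (hne : Lw d P w ≠ ⊥)
    (hno : ∀ h, (∀ f ∈ Lw d P w, h ^ 2 ∣ f) → h.totalDegree = 0) {e : ℕ} (he : 0 < e)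
    {H : MvPolynomial (Fin (1 + 2)) K} (hH : H.IsHomogeneous e) :
    ¬ ∀ f ∈ Vd d w P, H ^ 2 ∣ f := by
  classical
  intro hall
  have h1 : (deh K 1 H).totalDegree = 0 := by
    refine hno _ fun f hf => ?_
    obtain ⟨R, hR, rfl⟩ := lift_Lw hf
    obtain ⟨s, hs⟩ := hall R hR
    refine ⟨deh K 1 s, ?_⟩
    rw [hs, map_mul, map_pow]
  rw [totalDegree_eq_zero_iff_eq_C] at h1
  have h2 : H = C (coeff 0 (deh K 1 H)) * X 0 ^ e := by
    refine sub_eq_zero.1 (deh_inj (d := e) (hH.sub ?_) ?_)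
    · exact (isHomogeneous_X_pow 0 e).C_mul _
    · rw [map_sub, map_mul, map_pow, deh_X0, one_pow, mul_one, deh_C, ← h1, sub_self]
  have h3 : (X 0 : MvPolynomial (Fin (1 + 2)) K) ∣ H := by
    rw [h2]
    exact Dvd.dvd.mul_left (dvd_pow_self _ (by omega)) _
  have h4 : ∀ f ∈ Lw d P w, ∀ s, Finsupp.degree s = d → coeff s f = 0 := by
    intro f hf s hs
    obtain ⟨R, hR, rfl⟩ := lift_Lw hf
    obtain ⟨T, hT⟩ := (h3.trans (dvd_pow_self H two_ne_zero)).trans (hall R hR)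
    rw [coeff_deh (mem_Vd'.1 hR).1, if_pos hs.le, hT, coeff_X_mul', if_neg]
    rw [Finsupp.mem_support_iff, Finsupp.cons_zero, hs, Nat.sub_self]
    exact fun h => h rfl
  obtain ⟨f0, hf0, hf00⟩ := Submodule.exists_mem_ne_zero_of_ne_bot hne
  obtain ⟨hf1, hf2⟩ := mem_Lw'.1 hf0
  have hX : (X 0 : MvPolynomial (Fin (1 + 1)) K) ≠ 0 := X_ne_zero 0
  have hp0 := pow_ne_zero (d - f0.totalDegree) hX
  have h5 : (X 0 ^ (d - f0.totalDegree) * f0).totalDegree = d := by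
    rw [totalDegree_mul_of_isDomain hp0 hf00, td_pow hX, totalDegree_X]
    omega
  have h6 : X 0 ^ (d - f0.totalDegree) * f0 ∈ Lw d P w := by
    rw [mem_Lw']
    refine ⟨h5.le, fun j => ?_⟩
    rw [ord_mul]
    exact (hf2 j).trans le_add_self
  obtain ⟨α, hα, hα'⟩ := Finset.exists_mem_eq_sup (X 0 ^ (d - f0.totalDegree) * f0).support
    (by
      rw [Finset.nonempty_iff_ne_empty, Ne, MvPolynomial.support_eq_empty]
      exact mul_ne_zero hp0 hf00) (fun s => s.sum fun _ e => e)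
  exact mem_support_iff.1 hα (h4 _ h6 α (hα'.symm.trans h5))

/-- The splitting at general points. -/
theorem general_split (n : ℕ) (w : Fin n → ℕ) (d : ℕ) :
    ∃ F : MvPolynomial (Fin n × Fin (1 + 1)) ℂ, F ≠ 0 ∧ ∀ P : Fin n → Fin (1 + 1) → ℂ,
      eval (fun q : Fin n × Fin (1 + 1) => P q.1 q.2) F ≠ 0 →
      Module.finrank ℂ ↥(Vd d w P) ≠ 0 →
      ∃ (e : ℕ) (G : MvPolynomial (Fin (1 + 2)) ℂ) (w' : Fin n → ℕ), 2 * e ≤ d ∧
        G.IsHomogeneous e ∧ G ≠ 0 ∧ w' ≤ w ∧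
        (∀ f, f ∈ Vd d w P ↔ ∃ f' ∈ Vd (d - 2 * e) w' P, f = G ^ 2 * f') ∧
        Module.finrank ℂ ↥(Vd d w P) = Module.finrank ℂ ↥(Vd (d - 2 * e) w' P) ∧
        (∀ (c : ℕ) (H : MvPolynomial (Fin (1 + 2)) ℂ), 0 < c → H.IsHomogeneous c → H ≠ 0 →
          ¬ ∀ f ∈ Vd (d - 2 * e) w' P, H ^ 2 ∣ f) ∧
        ∀ Y : Finset ℕ, (∀ k, 2 ≤ w' k → w' k ∈ Y ∨ w' k + 1 ∈ Y) →
          (Module.finrank ℂ ↥(Vd (d - 2 * e) w' P) : ℤ) ≤
            nv 1 w' (d - 2 * e) + ∑ y ∈ Y, ((y - 1).choose 2 : ℤ) := by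
  classical
  choose F hF hF' using fun (q : ℕ × (Fin n → ℕ)) => general_segre n q.2 q.1
  refine ⟨∏ q ∈ Finset.range (d + 1) ×ˢ Fintype.piFinset (fun i => Finset.range (w i + 1)), F q,
    Finset.prod_ne_zero_iff.2 fun q _ => hF q, fun P hP hne => ?_⟩
  rw [map_prod, Finset.prod_ne_zero_iff] at hP
  have e1 : ∀ (d : ℕ) (w : Fin n → ℕ), Module.finrank ℂ ↥(Vd d w P) =
      Module.finrank ℂ ↥(Lw d P w) := fun d w => by
    rw [finrank_Vd_eq, ← Lw_eq]
  have hne1 : Lw d P w ≠ ⊥ := by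
    intro h
    apply hne
    rw [e1, h, finrank_bot]
  obtain ⟨g, w', hg0, hgd, hw', heq, hno⟩ := split P d w hne1
  obtain ⟨G, hG, hGg⟩ := deh_surj (K := ℂ) (E := 1) (d := g.totalDegree) (f := g) (by
    rw [mem_mspan]
    intro s hs
    exact le_totalDegree (mem_support_iff.2 hs))
  have hG0 : G ≠ 0 := by
    rintro rfl
    rw [map_zero] at hGg
    exact hg0 hGg.symm
  have hne2 : Lw (d - 2 * g.totalDegree) P w' ≠ ⊥ := by
    intro h1
    rw [h1, Submodule.map_bot] at heq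
    exact hne1 heq
  have hdim : Module.finrank ℂ ↥(Vd d w P) =
      Module.finrank ℂ ↥(Vd (d - 2 * g.totalDegree) w' P) := by
    rw [e1, e1, heq, finrank_map_mul (pow_ne_zero 2 hg0)]
  have hnof : ∀ (c : ℕ) (H : MvPolynomial (Fin (1 + 2)) ℂ), 0 < c → H.IsHomogeneous c → H ≠ 0 →
      ¬ ∀ f ∈ Vd (d - 2 * g.totalDegree) w' P, H ^ 2 ∣ f :=
    fun c H hc hH _ => no_mult hne2 hno hc hH
  refine ⟨g.totalDegree, G, w', hgd, hG, hG0, hw', split_forms hgd hG hGg heq, hdim, hnof,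
    fun Y hY => ?_⟩
  by_contra hcon
  obtain ⟨i, hi, c, H, hc, hH, hH0, -, hdvd⟩ := hF' (d - 2 * g.totalDegree, w') P
    (hP _ (by
      rw [Finset.mem_product, Finset.mem_range, Fintype.mem_piFinset]
      refine ⟨by show d - 2 * g.totalDegree < d + 1; omega, fun i => ?_⟩
      rw [Finset.mem_range]
      have h9 : w' i ≤ w i := hw' i
      show w' i < w i + 1
      omega)) (hdim ▸ hne) Y hY (not_le.1 hcon)
  exact hnof c H hc hH hH0 fun f hf => (pow_dvd_pow H hi).trans (hdvd f hf)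

end Pool.Agent.Q78.FO
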