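import Mathlib
import Pool.Agent.Q78.FO.Split
import Pool.Agent.Q310.FP.Gen

set_option autoImplicit false

/-!
# Reduced curves through very general points
-/

namespace Pool.Agent.Q78.FO

open MvPolynomial Pool.Agent.Q78.GW Pool.Agent.H932R5

section

variable {K : Type} [Field K]

/-- Homogenization of a factor. -/
theorem homog_dvd {d m : ℕ} {G : MvPolynomial (Fin (1 + 2)) K} (hG : G.IsHomogeneous d)
    (hG0 : G ≠ 0) {g : MvPolynomial (Fin (1 + 1)) K} (hg : g ^ m ∣ deh K 1 G) (hg0 : g ≠ 0) :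
    ∃ H : MvPolynomial (Fin (1 + 2)) K, H.IsHomogeneous g.totalDegree ∧ deh K 1 H = g ∧
      H ≠ 0 ∧ H ^ m ∣ G := by
  obtain ⟨H, hH, hHg⟩ := deh_surj (K := K) (E := 1) (d := g.totalDegree) (f := g) (by
    rw [mem_mspan]
    intro s hs
    exact le_totalDegree (mem_support_iff.2 hs))
  have hH0 : H ≠ 0 := by
    rintro rfl
    rw [map_zero] at hHg
    exact hg0 hHg.symm
  refine ⟨H, hH, hHg, hH0, ?_⟩
  obtain ⟨r, hr⟩ := hg
  have h4 : deh K 1 G ≠ 0 := fun h => hG0 (deh_inj hG h)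
  have hr0 : r ≠ 0 := by
    rintro rfl
    rw [mul_zero] at hr
    exact h4 hr
  have h5 : m * g.totalDegree + r.totalDegree ≤ d := by
    have h6 : (deh K 1 G).totalDegree ≤ d := by
      rw [← td_iff]
      intro α hα
      by_contra h7
      have h8 := deh_mem hG
      rw [mem_mspan] at h8
      exact absurd (h8 α h7) (not_le.2 hα)
    rw [hr, totalDegree_mul_of_isDomain (pow_ne_zero _ hg0) hr0, td_pow hg0] at h6
    exact h6
  obtain ⟨R, hR, hRr⟩ := deh_surj (K := K) (E := 1) (d := d - m * g.totalDegree) (f := r) (by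
    rw [mem_mspan]
    intro s hs
    have h6 := le_totalDegree (mem_support_iff.2 hs)
    show Finsupp.degree s ≤ _
    change Finsupp.degree s ≤ _ at h6
    omega)
  refine ⟨R, sub_eq_zero.1 (deh_inj (d := d) (hG.sub ?_) ?_)⟩
  · have h6 := (hH.pow m).mul hR
    have e : g.totalDegree * m + (d - m * g.totalDegree) = d := by
      rw [mul_comm]
      omega
    rwa [e] at h6
  · rw [map_sub, map_mul, map_pow, hHg, hRr, ← hr, sub_self]

end

/-- The inequality for reduced curves through very general points. -/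
theorem reduced_ineq {K : Type} [Field K] [CharZero K] {n : ℕ} {P : Fin n → Fin (1 + 1) → K}
    (hP : AlgebraicIndependent ℚ (fun q : Fin n × Fin (1 + 1) => P q.1 q.2)) {d : ℕ}
    {w : Fin n → ℕ} {G : MvPolynomial (Fin (1 + 2)) K} (hG : G ∈ Vd d w P) (hG0 : G ≠ 0)
    (hred : ∀ (c : ℕ) (H : MvPolynomial (Fin (1 + 2)) K), 0 < c → H.IsHomogeneous c → H ≠ 0 →
      ¬ H ^ 2 ∣ G) (Y : Finset ℕ) (hY : ∀ k, 2 ≤ w k → w k ∈ Y ∨ w k + 1 ∈ Y) :
    1 ≤ nv 1 w d + ∑ y ∈ Y, ((y - 1).choose 2 : ℤ) := by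
  obtain ⟨hG1, hG2⟩ := mem_Vd'.1 hG
  have hf0 : deh K 1 G ≠ 0 := fun h => hG0 (deh_inj hG1 h)
  have hne : Lw d P w ≠ ⊥ := by
    intro h
    rw [h, Submodule.mem_bot] at hG2
    exact hf0 hG2
  have i1 := Lw_fin d P w
  have h1 : Module.finrank K ↥(Lw d P w) ≠ 0 := fun h => hne (Submodule.finrank_eq_zero.1 h)
  have h2 := dim_eq d P w
  by_contra hcon
  obtain ⟨i, hi, g, hg0, hgi, hdvd⟩ := gen_segre hP d w Y hY hne (by omega)
  obtain ⟨H, hH, hHg, hH0, hHG⟩ := homog_dvd hG1 hG0 (hdvd _ hG2) hg0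
  refine hred _ H ?_ hH hH0 ((pow_dvd_pow H hi).trans hHG)
  by_contra h
  have h2 : g.totalDegree = 0 := by omega
  rw [totalDegree_eq_zero_iff_eq_C] at h2
  rw [h2, eval_C] at hgi
  rw [hgi, C_0] at h2
  exact hg0 h2

/-- The cyclic permutation of the variables. -/
def cyc : Fin 3 ≃ Fin 3 where
  toFun := ![1, 2, 0]
  invFun := ![2, 0, 1]
  left_inv := by decide
  right_inv := by decide

theorem rename_pt {K : Type} [Field K] {p : Fin 2 → K} {m : ℕ} {G : MvPolynomial (Fin 3) K}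
    (hG : G ∈ Pool.Agent.TH167.SHDefs.pt p ^ m) :
    rename cyc G ∈ (hI (K := K) (E := 1) p) ^ m := by
  have h1 := Ideal.mem_map_of_mem (rename (R := K) cyc) hG
  rw [Ideal.map_pow] at h1
  refine Ideal.pow_right_mono ?_ m h1
  unfold Pool.Agent.TH167.SHDefs.pt hI
  rw [Ideal.map_span, Ideal.span_le]
  rintro _ ⟨_, (rfl | rfl), rfl⟩
  · refine Ideal.subset_span ⟨0, ?_⟩
    rw [map_sub, map_mul, rename_X, rename_X, rename_C]
    rfl
  · refine Ideal.subset_span ⟨1, ?_⟩
    rw [map_sub, map_mul, rename_X, rename_X, rename_C]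
    rfl

/-- The inequality in terms of intersection numbers. -/
theorem reduced_inter {K : Type} [Field K] [CharZero K] {n : ℕ} {P : Fin n → Fin 2 → K}
    (hP : AlgebraicIndependent ℚ (fun q : Fin n × Fin 2 => P q.1 q.2)) {d : ℕ}
    {w : Fin n → ℕ} {G : MvPolynomial (Fin 3) K} (hG : G.IsHomogeneous d)
    (hGm : ∀ i, G ∈ Pool.Agent.TH167.SHDefs.pt (P i) ^ (w i)) (hG0 : G ≠ 0)
    (hred : ∀ (c : ℕ) (H : MvPolynomial (Fin 3) K), 0 < c → H.IsHomogeneous c → H ≠ 0 →
      ¬ H ^ 2 ∣ G) (Y : Finset ℕ) (hY : ∀ k, 2 ≤ w k → w k ∈ Y ∨ w k + 1 ∈ Y) :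
    Pool.Agent.TH167.SHDefs.interK d w - Pool.Agent.TH167.SHDefs.inter d w d w ≤ 2 * ∑ y ∈ Y, ((y - 1).choose 2 : ℤ) := by
  have hinj : Function.Injective (rename (R := K) cyc) := rename_injective _ cyc.injective
  have h1 : rename cyc G ∈ Vd (E := 1) d w P := by
    unfold Vd
    rw [Submodule.mem_inf, mem_homogeneousSubmodule, Submodule.restrictScalars_mem,
      Ideal.mem_iInf]
    exact ⟨hG.rename_isHomogeneous, fun i => rename_pt (hGm i)⟩
  have h2 : rename cyc G ≠ 0 := fun h => hG0 (hinj (h.trans (map_zero _).symm))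
  have h3 := reduced_ineq hP h1 h2 (fun c H hc hH hH0 hdvd => by
    have h4 : rename (R := K) cyc.symm (rename cyc G) = G := by
      rw [rename_rename]
      have e : (cyc.symm ∘ cyc : Fin 3 → Fin 3) = id := by
        funext j
        simp
      rw [e, rename_id_apply]
    have h5 := map_dvd (rename (R := K) cyc.symm) hdvd
    rw [h4, map_pow] at h5
    refine hred c _ hc hH.rename_isHomogeneous (fun h => hH0 ?_) h5
    exact rename_injective _ cyc.symm.injective (h.trans (map_zero _).symm)) Y hY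
  unfold nv at h3
  unfold Pool.Agent.TH167.SHDefs.interK Pool.Agent.TH167.SHDefs.inter
  have e1 : ∀ a : ℕ, (2 : ℤ) * (((a + 1).choose 2 : ℕ) : ℤ) = (a : ℤ) * a + a := by
    intro a
    have h6 : (a + 1).choose 2 * 2 = (a + 1) * a := by
      rw [Nat.choose_two_right, Nat.add_sub_cancel]
      exact Nat.div_mul_cancel (by
        have := Nat.even_mul_succ_self a
        rw [mul_comm] at this
        exact this.two_dvd)
    have h7 : (((a + 1).choose 2 : ℕ) : ℤ) * 2 = ((a : ℤ) + 1) * a := by exact_mod_cast h6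
    linarith
  have h4 : (2 : ℤ) * (((d + 1 + 1).choose (1 + 1) : ℕ) : ℤ) = (d : ℤ) * d + 3 * d + 2 := by
    have := e1 (d + 1)
    push_cast at this ⊢
    linarith
  have h5 : (2 : ℤ) * ∑ i, (((w i + 1).choose (1 + 1) : ℕ) : ℤ) =
      ∑ i, (w i : ℤ) * w i + ∑ i, (w i : ℤ) := by
    rw [Finset.mul_sum, ← Finset.sum_add_distrib]
    exact Finset.sum_congr rfl fun i _ => e1 (w i)
  linarith

end Pool.Agent.Q78.FO
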