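import Mathlib
import Pool.Agent.Q78.FO.Reduced

set_option autoImplicit false

/-!
# The superabundance of systems with a reduced member
-/

namespace Pool.Agent.Q78.FO

open MvPolynomial Pool.Agent.Q78.GW Pool.Agent.H932R5

/-- The superabundance of a system with a reduced member. -/
theorem reduced_hs {K : Type} [Field K] [CharZero K] {n : ℕ} {P : Fin n → Fin (1 + 1) → K}
    (hP : AlgebraicIndependent ℚ (fun q : Fin n × Fin (1 + 1) => P q.1 q.2)) {d : ℕ}
    {w : Fin n → ℕ} {G : MvPolynomial (Fin (1 + 2)) K} (hG : G ∈ Vd d w P) (hG0 : G ≠ 0)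
    (hred : ∀ (c : ℕ) (H : MvPolynomial (Fin (1 + 2)) K), 0 < c → H.IsHomogeneous c → H ≠ 0 →
      ¬ H ^ 2 ∣ G) (Y : Finset ℕ) (hY : ∀ k, 2 ≤ w k → w k ∈ Y ∨ w k + 1 ∈ Y) :
    hs d P w ≤ ∑ y ∈ Y, ((y - 1).choose 2 : ℤ) := by
  obtain ⟨hG1, hG2⟩ := mem_Vd'.1 hG
  have hf0 : deh K 1 G ≠ 0 := fun h => hG0 (deh_inj hG1 h)
  have hne : Lw d P w ≠ ⊥ := by
    intro h
    rw [h, Submodule.mem_bot] at hG2
    exact hf0 hG2
  by_contra hcon
  obtain ⟨i, hi, g, hg0, hgi, hdvd⟩ := gen_segre hP d w Y hY hne (not_le.1 hcon)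
  obtain ⟨H, hH, hHg, hH0, hHG⟩ := homog_dvd hG1 hG0 (hdvd _ hG2) hg0
  refine hred _ H ?_ hH hH0 ((pow_dvd_pow H hi).trans hHG)
  by_contra h
  have h2 : g.totalDegree = 0 := by omega
  rw [totalDegree_eq_zero_iff_eq_C] at h2
  rw [h2, eval_C] at hgi
  rw [hgi, C_0] at h2
  exact hg0 h2

theorem rename_sys {K : Type} [Field K] {n : ℕ} {P : Fin n → Fin 2 → K} {d : ℕ} {w : Fin n → ℕ}
    {G : MvPolynomial (Fin 3) K} (hG : G ∈ Pool.Agent.TH167.SHDefs.sys P d w) :
    rename cyc G ∈ Vd (E := 1) d w P := by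
  unfold Pool.Agent.TH167.SHDefs.sys at hG
  rw [Submodule.mem_inf, mem_homogeneousSubmodule, Submodule.restrictScalars_mem,
    Ideal.mem_iInf] at hG
  unfold Vd
  rw [Submodule.mem_inf, mem_homogeneousSubmodule, Submodule.restrictScalars_mem,
    Ideal.mem_iInf]
  exact ⟨hG.1.rename_isHomogeneous, fun i => rename_pt (hG.2 i)⟩

theorem finrank_sys_le {K : Type} [Field K] {n : ℕ} (P : Fin n → Fin 2 → K) (d : ℕ)
    (w : Fin n → ℕ) : Module.finrank K ↥(Pool.Agent.TH167.SHDefs.sys P d w) ≤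
      Module.finrank K ↥(Lw (E := 1) d P w) := by
  have i1 := Lw_fin (E := 1) d P w
  have hinj : Function.Injective (rename (R := K) cyc) := rename_injective _ cyc.injective
  let φ : ↥(Pool.Agent.TH167.SHDefs.sys P d w) →ₗ[K] ↥(Lw (E := 1) d P w) :=
    { toFun := fun G => ⟨deh K 1 (rename cyc G.1), (mem_Vd'.1 (rename_sys G.2)).2⟩
      map_add' := fun f g => Subtype.ext (by
        show deh K 1 (rename cyc (f.1 + g.1)) = _
        rw [map_add, map_add]
        rfl)
      map_smul' := fun a f => Subtype.ext (by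
        show deh K 1 (rename cyc (a • f.1)) = _
        rw [map_smul, map_smul]
        rfl) }
  refine LinearMap.finrank_le_finrank_of_injective (f := φ) fun F G hFG => ?_
  have h1 : deh K 1 (rename cyc F.1) = deh K 1 (rename cyc G.1) := congrArg Subtype.val hFG
  have h2 := (mem_Vd'.1 (rename_sys F.2)).1
  have h3 := (mem_Vd'.1 (rename_sys G.2)).1
  refine Subtype.ext (hinj (sub_eq_zero.1 (deh_inj (d := d) (h2.sub h3) ?_)))
  rw [map_sub, h1, sub_self]

open Pool.Agent.TH167.SHDefs in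
/-- The first cohomology of a class with a reduced member. -/
theorem reduced_h1 {K : Type} [Field K] [CharZero K] {n : ℕ} {P : Fin n → Fin 2 → K}
    (hP : AlgebraicIndependent ℚ (fun q : Fin n × Fin 2 => P q.1 q.2)) {d : ℕ}
    {w : Fin n → ℕ} {G : MvPolynomial (Fin 3) K} (hG : Squarefree G)
    (hm : G ∈ Pool.Agent.TH167.SHDefs.sys P d w) (Y : Finset ℕ)
    (hY : ∀ k, 2 ≤ w k → w k ∈ Y ∨ w k + 1 ∈ Y) :
    dimL P d w - virtdim d w ≤ ∑ y ∈ Y, ((y - 1).choose 2 : ℤ) := by
  have hinj : Function.Injective (rename (R := K) cyc) := rename_injective _ cyc.injective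
  have h1 := rename_sys hm
  have h2 : rename cyc G ≠ 0 := fun h => hG.ne_zero (hinj (h.trans (map_zero _).symm))
  have h3 := reduced_hs hP h1 h2 (fun c H hc hH hH0 hdvd => by
    have h4 : rename (R := K) cyc.symm (rename cyc G) = G := by
      rw [rename_rename]
      have e : (cyc.symm ∘ cyc : Fin 3 → Fin 3) = id := by
        funext j
        simp
      rw [e, rename_id_apply]
    have h5 := map_dvd (rename (R := K) cyc.symm) hdvd
    rw [h4, map_pow, sq] at h5
    have h6 : IsUnit (rename (R := K) cyc.symm H) := hG _ h5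
    have h7 : rename (R := K) cyc.symm H ≠ 0 := fun h => hH0
      (rename_injective _ cyc.symm.injective (h.trans (map_zero _).symm))
    obtain ⟨H', hH'⟩ := h6.exists_right_inv
    have hH'0 : H' ≠ 0 := by
      rintro rfl
      rw [mul_zero] at hH'
      exact zero_ne_one hH'
    have h8 := totalDegree_mul_of_isDomain h7 hH'0
    rw [hH', totalDegree_one, (hH.rename_isHomogeneous (f := cyc.symm)).totalDegree h7] at h8
    omega) Y hY
  have h4 := finrank_sys_le P d w
  have h5 := dim_eq (E := 1) d P w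
  unfold dimL virtdim
  unfold nv at h5
  have h6 : (Module.finrank K ↥(Pool.Agent.TH167.SHDefs.sys P d w) : ℤ) ≤
      (Module.finrank K ↥(Lw (E := 1) d P w) : ℤ) := by exact_mod_cast h4
  have h7 : ((d + 1 + 1).choose (1 + 1) : ℤ) = ((d + 2).choose 2 : ℤ) := rfl
  have h8 : ∑ i, ((w i + 1).choose (1 + 1) : ℤ) = ∑ i, ((w i + 1).choose 2 : ℤ) := rfl
  rw [h7, h8] at h5
  linarith

end Pool.Agent.Q78.FO
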